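import Pool.Agent.H80IE.Stm

set_option autoImplicit false

open Filter Topology MeasureTheory ProbabilityTheory

namespace Pool.Agent.H80IE

open Pool.Agent.Y311.UB Pool.Agent.Y311.CX Pool.Agent.H80GE

theorem smul_one_int (s : ℕ) : s • (1 : ℤ) = (s : ℤ) := by simp

theorem COR.t : COR := by
  intro V _ _ ν _ Ψ h W hW
  have hb := h.birkhoff 1 hW
  obtain ⟨hW1, C, hC⟩ := hW
  have hWB : BMr W := ⟨hW1, C, hC⟩
  have hC' : ∀ x, |W x| ≤ |C| := fun x => (hC x).trans (le_abs_self _)
  -- the square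
  have hsq : ∫ z, (ν[W | inv Ψ 1]) z ^ 2 ∂ν = ∫ z, (ν[W | inv Ψ 1]) z * W z ∂ν := by
    have hm := inv_le Ψ 1
    have h4 : Integrable (W * ν[W | inv Ψ 1]) ν :=
      Integrable.bdd_mul (c := C) integrable_condExp hW1.aestronglyMeasurable (Eventually.of_forall hC)
    have h5 : ν[W * ν[W | inv Ψ 1] | inv Ψ 1] =ᵐ[ν] ν[W | inv Ψ 1] * ν[W | inv Ψ 1] :=
      condExp_mul_of_stronglyMeasurable_right stronglyMeasurable_condExp h4 hWB.integrable
    have h6 := integral_condExp (μ := ν) hm (f := W * ν[W | inv Ψ 1])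
    have h7 : ∫ x, (ν[W | inv Ψ 1]) x * W x ∂ν = ∫ x, (W * ν[W | inv Ψ 1]) x ∂ν := by
      refine integral_congr_ae (Eventually.of_forall fun x => ?_)
      simp only [Pi.mul_apply]
      ring
    rw [h7, ← h6]
    refine integral_congr_ae ?_
    filter_upwards [h5] with x hx
    rw [hx]
    simp only [Pi.mul_apply]
    ring
  rw [hsq]
  have hlim : Tendsto (fun M : ℕ => ∫ z, ((M : ℝ)⁻¹ * ∑ m ∈ Finset.range M, W (Ψ (m • (1 : ℤ)) z)) * W z ∂ν) atTop
      (𝓝 (∫ z, (ν[W | inv Ψ 1]) z * W z ∂ν)) := by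
    refine tendsto_integral_of_dominated_convergence (fun _ => |C| * |C|) ?_ (integrable_const _) ?_ ?_
    · intro S
      refine Measurable.aestronglyMeasurable (Measurable.mul ?_ hW1)
      exact (Finset.measurable_fun_sum _ fun s _ => hW1.comp (h.measurable _)).const_mul _
    · intro S
      refine Eventually.of_forall fun x => ?_
      rw [Real.norm_eq_abs, abs_mul]
      exact mul_le_mul (abs_avg_le (abs_nonneg _) (fun s => hC' _) S) (hC' _) (abs_nonneg _) (abs_nonneg _)
    · filter_upwards [hb] with x hx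
      exact hx.mul_const _
  refine hlim.congr fun M => ?_
  have e : ∀ z, ((M : ℝ)⁻¹ * ∑ m ∈ Finset.range M, W (Ψ (m • (1 : ℤ)) z)) * W z =
      (M : ℝ)⁻¹ * ∑ m ∈ Finset.range M, W (Ψ (m : ℤ) z) * W z := by
    intro z
    rw [mul_assoc, Finset.sum_mul]
    simp only [smul_one_int]
  simp_rw [e]
  rw [integral_const_mul, integral_finsetSum]
  intro m _
  exact ((hWB.comp (h.measurable _)).mul hWB).integrable

end Pool.Agent.H80IE
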