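import Pool.Agent.H80IE.Stm

set_option autoImplicit false

open Filter Topology MeasureTheory ProbabilityTheory
open scoped ENNReal ProbabilityTheory

namespace Pool.Agent.H80IE

open Pool.Agent.Y311.UB Pool.Agent.Y311.CX Pool.Agent.H80GE

theorem FAV.t (hE : FERG) : FAV := by
  intro X _ _ μ _ Φ h u hu
  set L : X → ℝ := fun x => ∫ y, u (x, y) ∂(relK μ Φ 1 x) with hL
  have hLB : BMr L := by
    have h1 : BMr (Kf μ Φ 1 u (fun _ => 1)) := Kf_BMr hu BMr.one
    have h2 : Kf μ Φ 1 u (fun _ => 1) = L := by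
      funext x
      simp only [Kf, hL, mul_one]
    rwa [h2] at h1
  have hterm : ∀ s : ℕ, BMr fun z : X × X => u (z.1, Φ (s : ℤ) z.2) := fun s =>
    hu.comp (measurable_fst.prodMk ((h.measurable _).comp measurable_snd))
  obtain ⟨hum, C, hC⟩ := hu
  have hC' : ∀ z, |u z| ≤ |C| := fun z => (hC z).trans (le_abs_self _)
  set A : ℕ → X × X → ℝ := fun H z => (H : ℝ)⁻¹ * ∑ s ∈ Finset.range H, u (z.1, Φ (s : ℤ) z.2) with hA
  have hAm : ∀ H, Measurable (A H) := fun H =>
    (Finset.measurable_fun_sum _ fun s _ => (hterm s).1).const_mul _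
  have hAb : ∀ H z, |A H z| ≤ |C| := fun H z =>
    abs_avg_le (f := fun s : ℕ => u (z.1, Φ (s : ℤ) z.2)) (abs_nonneg _) (fun s => hC' _) H
  have hconv : ∀ᵐ z ∂(S2 μ Φ), Tendsto (fun H : ℕ => A H z - L z.1) atTop (𝓝 0) := by
    refine Measure.ae_compProd_of_ae_ae ?_ ?_
    · exact measurableSet_tendsto (𝓝 (0 : ℝ)) fun H => (hAm H).sub (hLB.1.comp measurable_fst)
    · filter_upwards [hE X μ Φ h] with x hx
      have h2 := erg_real hx (fun y => u (x, y)) (hum.comp measurable_prodMk_left) |C| (fun y => hC' _)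
      filter_upwards [h2] with y hy
      have h3 : Tendsto (fun H : ℕ => A H (x, y)) atTop (𝓝 (L x)) := by
        refine hy.congr fun n => ?_
        simp only [hA, h.iterate]
        simp
      have h4 := h3.sub_const (L x)
      rwa [sub_self] at h4
  have h0 : (0 : ℝ) = ∫ _z, (0 : ℝ) ∂(S2 μ Φ) := by simp
  rw [h0]
  obtain ⟨hLm, D, hD⟩ := hLB
  refine tendsto_integral_of_dominated_convergence (fun _ => |C| + D) ?_ (integrable_const _) ?_ ?_
  · intro H
    exact ((hAm H).sub (hLm.comp measurable_fst)).abs.aestronglyMeasurable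
  · intro H
    refine Eventually.of_forall fun z => ?_
    rw [Real.norm_eq_abs, abs_abs]
    exact (abs_sub _ _).trans (add_le_add (hAb H z) (hD z.1))
  · filter_upwards [hconv] with z hz
    have := hz.abs
    rwa [abs_zero] at this

end Pool.Agent.H80IE
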