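import Pool.Agent.H80IE.RelBase

set_option autoImplicit false

open Filter Topology MeasureTheory ProbabilityTheory
open scoped ENNReal ProbabilityTheory

namespace Pool.Agent.H80IE

open Pool.Agent.Y311.UB Pool.Agent.Y311.CX Pool.Agent.H80GE

theorem FERG.t : FERG := by
  intro X _ _ μ _ Φ h
  obtain ⟨C, hCc, hCg, hCp, hCm⟩ := Pool.Agent.R291.QD.exists_countable_piSystem (X := X)
  -- the averages converge to a constant on the fibres
  have h1 : ∀ᵐ z ∂μ, ∀ B ∈ C, ∀ᵐ x ∂(relK μ Φ 1 z),
      Tendsto (fun S : ℕ => (S : ℝ)⁻¹ * ∑ s ∈ Finset.range S, B.indicator (fun _ => (1 : ℝ)) (Φ (s • (1 : ℤ)) x))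
        atTop (𝓝 ((relK μ Φ 1 z).real B)) := by
    rw [ae_ball_iff hCc]
    intro B hB
    have hBm := hCm B hB
    have h2 := h.birkhoff 1 (BMr.indicator hBm)
    have h3 : μ[B.indicator (fun _ => (1 : ℝ)) | inv Φ 1] =ᵐ[μ] fun z => (relK μ Φ 1 z).real B := by
      filter_upwards [relK_integral μ Φ (BMr.indicator hBm).integrable] with z hz
      rw [hz, integral_indicator hBm, setIntegral_const]
      simp
    have h4 : ∀ᵐ x ∂μ, Tendsto (fun S : ℕ => (S : ℝ)⁻¹ * ∑ s ∈ Finset.range S,
        B.indicator (fun _ => (1 : ℝ)) (Φ (s • (1 : ℤ)) x)) atTop (𝓝 ((relK μ Φ 1 x).real B)) := by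
      filter_upwards [h2, h3] with x hx1 hx2
      rwa [hx2] at hx1
    filter_upwards [relK_ae μ Φ h4, relK_real_const μ Φ hBm] with z hz1 hz2
    filter_upwards [hz1, hz2] with x hx1 hx2
    rwa [hx2] at hx1
  filter_upwards [h1, relK_mp h 1] with z hz hmp
  have hmp1 : MeasurePreserving (Φ 1) (relK μ Φ 1 z) (relK μ Φ 1 z) := by
    have := hmp 1
    simpa using this
  refine { hmp1 with aeconst_set := ?_ }
  intro A hA hinv
  have hinvs : ∀ s : ℕ, Φ (s • (1 : ℤ)) ⁻¹' A = A := by
    intro s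
    induction s with
    | zero =>
      ext x
      simp [h.zero_apply]
    | succ s ih =>
      ext x
      rw [Set.mem_preimage, succ_nsmul, h.add_apply]
      have e1 : Φ (s • (1 : ℤ)) (Φ 1 x) ∈ A ↔ Φ 1 x ∈ A := by
        have := Set.ext_iff.1 ih (Φ 1 x)
        simpa using this
      have e2 : Φ 1 x ∈ A ↔ x ∈ A := by
        have := Set.ext_iff.1 hinv x
        simpa using this
      rw [e1, e2]
  have hind : ∀ B ∈ C, (relK μ Φ 1 z) (B ∩ A) = (relK μ Φ 1 z) A * (relK μ Φ 1 z) B := by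
    intro B hB
    have hBm := hCm B hB
    have hlim : Tendsto (fun S : ℕ => ∫ x in A, (S : ℝ)⁻¹ * ∑ s ∈ Finset.range S,
        B.indicator (fun _ => (1 : ℝ)) (Φ (s • (1 : ℤ)) x) ∂(relK μ Φ 1 z)) atTop
        (𝓝 (∫ _ in A, (relK μ Φ 1 z).real B ∂(relK μ Φ 1 z))) := by
      refine tendsto_integral_of_dominated_convergence (fun _ => (1 : ℝ)) ?_ (integrable_const _) ?_ ?_
      · intro S
        exact ((Finset.measurable_fun_sum _ fun s _ =>
          (BMr.indicator hBm).1.comp (h.measurable _)).const_mul _).aestronglyMeasurable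
      · intro S
        refine Eventually.of_forall fun x => ?_
        rw [Real.norm_eq_abs]
        refine abs_avg_le zero_le_one (fun s => ?_) S
        generalize Φ (s • (1 : ℤ)) x = y
        by_cases hy : y ∈ B <;> simp [hy]
      · exact ae_restrict_of_ae (hz B hB)
    have hval : ∀ s : ℕ, ∫ x in A, B.indicator (fun _ => (1 : ℝ)) (Φ (s • (1 : ℤ)) x) ∂(relK μ Φ 1 z) =
        (relK μ Φ 1 z).real (B ∩ A) := by
      intro s
      have hms : MeasurePreserving (Φ (s • (1 : ℤ))) (relK μ Φ 1 z) (relK μ Φ 1 z) := by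
        have := hmp (s : ℤ)
        simpa using this
      have e1 : (fun x => B.indicator (fun _ => (1 : ℝ)) (Φ (s • (1 : ℤ)) x)) =
          (Φ (s • (1 : ℤ)) ⁻¹' B).indicator (fun _ => (1 : ℝ)) := by
        funext x
        rfl
      rw [e1, integral_indicator (hms.measurable hBm), Measure.restrict_restrict (hms.measurable hBm),
        setIntegral_const]
      have e2 : Φ (s • (1 : ℤ)) ⁻¹' B ∩ A = Φ (s • (1 : ℤ)) ⁻¹' (B ∩ A) := by
        rw [Set.preimage_inter, hinvs s]
      rw [e2, measureReal_def, hms.measure_preimage (hBm.inter hA).nullMeasurableSet, ← measureReal_def]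
      simp
    have hconst : ∀ S : ℕ, 0 < S → ∫ x in A, (S : ℝ)⁻¹ * ∑ s ∈ Finset.range S,
        B.indicator (fun _ => (1 : ℝ)) (Φ (s • (1 : ℤ)) x) ∂(relK μ Φ 1 z) = (relK μ Φ 1 z).real (B ∩ A) := by
      intro S hS
      rw [integral_const_mul, integral_finsetSum]
      · simp only [hval]
        rw [Finset.sum_const, Finset.card_range, nsmul_eq_mul]
        have : (S : ℝ) ≠ 0 := by exact_mod_cast hS.ne'
        field_simp
      · intro s _
        exact (((BMr.indicator hBm).comp (h.measurable _)).integrable (μ := relK μ Φ 1 z)).integrableOn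
    have hlim2 : Tendsto (fun S : ℕ => ∫ x in A, (S : ℝ)⁻¹ * ∑ s ∈ Finset.range S,
        B.indicator (fun _ => (1 : ℝ)) (Φ (s • (1 : ℤ)) x) ∂(relK μ Φ 1 z)) atTop (𝓝 ((relK μ Φ 1 z).real (B ∩ A))) := by
      refine tendsto_const_nhds.congr' ?_
      filter_upwards [eventually_gt_atTop 0] with S hS
      exact (hconst S hS).symm
    have h5 := tendsto_nhds_unique hlim2 hlim
    rw [setIntegral_const, smul_eq_mul] at h5
    rw [← ENNReal.toReal_eq_toReal_iff' (measure_ne_top _ _)
      (ENNReal.mul_ne_top (measure_ne_top _ _) (measure_ne_top _ _)), ENNReal.toReal_mul]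
    exact h5
  have h6 : (relK μ Φ 1 z).restrict A = (relK μ Φ 1 z A) • (relK μ Φ 1 z) := by
    refine ext_of_generate_finite C hCg hCp (fun B hB => ?_) ?_
    · rw [Measure.restrict_apply (hCm B hB), hind B hB]
      simp
    · simp
  have h2 : relK μ Φ 1 z A = relK μ Φ 1 z A * relK μ Φ 1 z A := by
    have := congrArg (fun m => m A) h6
    simp only [Measure.restrict_apply hA, Set.inter_self] at this
    simpa using this
  rw [Filter.eventuallyConst_set']
  by_cases h0 : relK μ Φ 1 z A = 0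
  · left
    exact ae_eq_empty.2 h0
  · right
    have h3 : relK μ Φ 1 z A * 1 = relK μ Φ 1 z A * relK μ Φ 1 z A := by rwa [mul_one]
    have h4 : relK μ Φ 1 z A = 1 := ((ENNReal.mul_right_inj h0 (measure_ne_top _ _)).1 h3).symm
    rw [ae_eq_univ]
    rw [prob_compl_eq_zero_iff hA]
    exact h4

end Pool.Agent.H80IE
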