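import Pool.Agent.H80IE.Stm

/-!
Project IE, stub SPN: convergence for functions in the closed span, one slot after the other.
-/

set_option autoImplicit false
set_option linter.all false

open Filter Topology MeasureTheory ProbabilityTheory Finset
open scoped ENNReal

noncomputable section

namespace Pool.Agent.H80IE.SPN

open Pool.Agent.Y311.UB Pool.Agent.Y311.CX Pool.Agent.H80GE

variable {X : Type} [MeasurableSpace X]

lemma QS_bmr {ν : Measure (X × X)} {Ψ : ℤ → Equiv.Perm (X × X)} {u : X × X → ℝ} (h : QS ν Ψ u) :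
    BMr u := by
  induction h with
  | base k g hk hg => exact hk.1.mul (hg.comp measurable_snd)
  | add u v _ _ hu hv => exact BMr.add' hu hv

lemma prod_upd {m : ℕ} (F : Fin m → X × X → ℝ) (j0 : Fin m) (w : X × X → ℝ)
    (y : Fin m → X × (Fin m → X)) :
    ∏ j, FF (Function.update F j0 w) j (y j) =
      ((w ((y j0).1, (y j0).2 j0) : ℝ) : ℂ) * ∏ j ∈ univ.erase j0, FF F j (y j) := by
  rw [← Finset.mul_prod_erase Finset.univ _ (Finset.mem_univ j0)]
  congr 1
  · simp [FF]
  · refine Finset.prod_congr rfl fun j hj => ?_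
    rw [Finset.mem_erase] at hj
    simp only [FF, Function.update_of_ne hj.1]

lemma AV_add {m : ℕ} (Φ : ℤ → Equiv.Perm X) (a : Fin m → ℕ) (F : Fin m → X × X → ℝ) (j0 : Fin m)
    (u v : X × X → ℝ) (N : ℕ) (p : X × (Fin m → X)) :
    AV (RR Φ) a (FF (Function.update F j0 fun z => u z + v z)) N p =
      AV (RR Φ) a (FF (Function.update F j0 u)) N p + AV (RR Φ) a (FF (Function.update F j0 v)) N p := by
  unfold AV av
  rw [← mul_add, ← Finset.sum_add_distrib]
  congr 1
  refine Finset.sum_congr rfl fun n _ => ?_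
  beta_reduce
  rw [prod_upd F j0 (fun z => u z + v z) (fun j => (RR Φ)^[a j * (n + 1)] p),
    prod_upd F j0 u (fun j => (RR Φ)^[a j * (n + 1)] p),
    prod_upd F j0 v (fun j => (RR Φ)^[a j * (n + 1)] p)]
  push_cast
  ring

lemma AV_diff {m : ℕ} (Φ : ℤ → Equiv.Perm X) (a : Fin m → ℕ) (F : Fin m → X × X → ℝ) (j0 : Fin m)
    (v : X × X → ℝ) (C : ℝ) (hC : 1 ≤ C) (hF : ∀ j z, |F j z| ≤ C) (N : ℕ) (p : X × (Fin m → X)) :
    ‖AV (RR Φ) a (FF F) N p - AV (RR Φ) a (FF (Function.update F j0 v)) N p‖ ≤
      C ^ m * ((N : ℝ)⁻¹ * ∑ n ∈ range N, (fun q : X × (Fin m → X) => |F j0 (q.1, q.2 j0) - v (q.1, q.2 j0)|)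
        ((RR Φ)^[a j0 * (n + 1)] p)) := by
  have hC0 : 0 ≤ C := by linarith
  have e0 : F = Function.update F j0 (F j0) := by simp
  have hpr : ∀ n : ℕ, ‖∏ j ∈ univ.erase j0, FF F j ((RR Φ)^[a j * (n + 1)] p)‖ ≤ C ^ m := by
    intro n
    rw [norm_prod]
    calc ∏ j ∈ univ.erase j0, ‖FF F j ((RR Φ)^[a j * (n + 1)] p)‖ ≤ ∏ _j ∈ univ.erase j0, C := by
          refine Finset.prod_le_prod (fun _ _ => norm_nonneg _) fun j _ => ?_
          simp only [FF, Complex.norm_real, Real.norm_eq_abs]
          exact hF j _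
      _ = C ^ (univ.erase j0).card := by rw [Finset.prod_const]
      _ ≤ C ^ m := by
          apply pow_le_pow_right₀ hC
          exact (Finset.card_le_univ _).trans (by simp)
  unfold AV av
  rw [← mul_sub, ← Finset.sum_sub_distrib, norm_mul, norm_inv, Complex.norm_natCast]
  calc (N : ℝ)⁻¹ * ‖∑ n ∈ range N, (∏ j, FF F j ((RR Φ)^[a j * (n + 1)] p) -
          ∏ j, FF (Function.update F j0 v) j ((RR Φ)^[a j * (n + 1)] p))‖
      ≤ (N : ℝ)⁻¹ * ∑ n ∈ range N, C ^ m * (fun q : X × (Fin m → X) => |F j0 (q.1, q.2 j0) - v (q.1, q.2 j0)|)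
        ((RR Φ)^[a j0 * (n + 1)] p) := by
        gcongr
        refine norm_sum_le_of_le _ fun n _ => ?_
        have e1 : ∏ j, FF F j ((RR Φ)^[a j * (n + 1)] p) =
            ∏ j, FF (Function.update F j0 (F j0)) j ((RR Φ)^[a j * (n + 1)] p) := by rw [← e0]
        rw [e1, prod_upd F j0 (F j0) (fun j => (RR Φ)^[a j * (n + 1)] p),
          prod_upd F j0 v (fun j => (RR Φ)^[a j * (n + 1)] p), ← sub_mul, norm_mul, mul_comm]
        refine mul_le_mul (hpr n) (le_of_eq ?_) (norm_nonneg _) (by positivity)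
        rw [← Complex.ofReal_sub, Complex.norm_real, Real.norm_eq_abs]
    _ = _ := by
        rw [← Finset.mul_sum]
        ring

/-- convergence almost everywhere -/
def Cv {m : ℕ} (η : Measure X) [IsProbabilityMeasure η] (Φ : ℤ → Equiv.Perm X) (a : Fin m → ℕ)
    (F : Fin m → X × X → ℝ) : Prop :=
  ∀ᵐ p ∂(η.prod (Measure.pi fun _ : Fin m => η)), ∃ L, Tendsto (fun N => AV (RR Φ) a (FF F) N p) atTop (𝓝 L)

lemma Cv_add {m : ℕ} {η : Measure X} [IsProbabilityMeasure η] {Φ : ℤ → Equiv.Perm X} {a : Fin m → ℕ}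
    {F : Fin m → X × X → ℝ} {j0 : Fin m} {u v : X × X → ℝ} (hu : Cv η Φ a (Function.update F j0 u))
    (hv : Cv η Φ a (Function.update F j0 v)) : Cv η Φ a (Function.update F j0 fun z => u z + v z) := by
  unfold Cv at *
  filter_upwards [hu, hv] with p h1 h2
  obtain ⟨L1, h1⟩ := h1
  obtain ⟨L2, h2⟩ := h2
  refine ⟨L1 + L2, ?_⟩
  simp only [AV_add]
  exact h1.add h2

/-- Step B -/
lemma stepB (h : PRD) [StandardBorelSpace X] (η : Measure X) [IsProbabilityMeasure η] (Φ : ℤ → Equiv.Perm X)
    (hA : Act η Φ) (m : ℕ) (a : Fin m → ℕ) (ha : ∀ j, 0 < a j) (J : Finset (Fin m)) :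
    ∀ F : Fin m → X × X → ℝ, (∀ j ∈ J, QS (η.prod η) (D2 Φ) (F j)) →
    (∀ j, j ∉ J → ∃ (k : X × X → ℝ) (g : X → ℝ), APf (η.prod η) (D2 Φ) 1 k ∧ BMr g ∧
      F j = fun z => k z * g z.2) → Cv η Φ a F := by
  induction J using Finset.induction_on with
  | empty =>
    intro F _ hF
    choose k g hk hg hF using fun j => hF j (Finset.notMem_empty j)
    have e : F = fun j z => k j z * g j z.2 := funext hF
    unfold Cv
    rw [e]
    exact h X η Φ hA m a ha k g hk hg
  | insert j0 J hj0 ih =>
    intro F hQ hB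
    have key : ∀ u, QS (η.prod η) (D2 Φ) u → Cv η Φ a (Function.update F j0 u) := by
      intro u hu
      induction hu with
      | base k g hk hg =>
        apply ih
        · intro j hj
          have hne : j ≠ j0 := fun h => hj0 (h ▸ hj)
          rw [Function.update_of_ne hne]
          exact hQ j (Finset.mem_insert_of_mem hj)
        · intro j hj
          by_cases hne : j = j0
          · subst hne
            exact ⟨k, g, hk, hg, by rw [Function.update_self]⟩
          · rw [Function.update_of_ne hne]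
            exact hB j (by
              rw [Finset.mem_insert]
              push Not
              exact ⟨hne, hj⟩)
      | add u v _ _ hu hv => exact Cv_add hu hv
    have := key (F j0) (hQ j0 (Finset.mem_insert_self _ _))
    rwa [Function.update_eq_self] at this

lemma mp_RR {m : ℕ} (η : Measure X) [IsProbabilityMeasure η] (Φ : ℤ → Equiv.Perm X) (hA : Act η Φ) :
    MeasurePreserving (RR (m := m) Φ) (η.prod (Measure.pi fun _ : Fin m => η))
      (η.prod (Measure.pi fun _ : Fin m => η)) := by
  have h1 := hA.mp 1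
  have h2 : MeasurePreserving (fun (ω : Fin m → X) j => Φ 1 (ω j)) (Measure.pi fun _ : Fin m => η)
      (Measure.pi fun _ : Fin m => η) :=
    measurePreserving_pi (fun _ => η) (fun _ => η) fun _ => h1
  exact h1.prod h2

lemma mp_ev {m : ℕ} (η : Measure X) [IsProbabilityMeasure η] (j0 : Fin m) :
    MeasurePreserving (fun p : X × (Fin m → X) => (p.1, p.2 j0)) (η.prod (Measure.pi fun _ : Fin m => η))
      (η.prod η) :=
  (MeasurePreserving.id η).prod (measurePreserving_eval (fun _ : Fin m => η) j0)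

/-- Step C -/
lemma stepC (h : PRD) [StandardBorelSpace X] (η : Measure X) [IsProbabilityMeasure η] (Φ : ℤ → Equiv.Perm X)
    (hA : Act η Φ) (m : ℕ) (a : Fin m → ℕ) (ha : ∀ j, 0 < a j) (J : Finset (Fin m)) :
    ∀ F : Fin m → X × X → ℝ, (∀ j ∈ J, LA (η.prod η) (D2 Φ) (F j)) →
    (∀ j, j ∉ J → QS (η.prod η) (D2 Φ) (F j)) → Cv η Φ a F := by
  induction J using Finset.induction_on with
  | empty =>
    intro F _ hF
    exact stepB h η Φ hA m a ha univ F (fun j _ => hF j (Finset.notMem_empty j))
      (fun j hj => absurd (Finset.mem_univ j) hj)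
  | insert j0 J hj0 ih =>
    intro F hL hQ
    have hbm : ∀ j, BMr (F j) := by
      intro j
      by_cases hj : j ∈ insert j0 J
      · exact (hL j hj).1
      · exact QS_bmr (hQ j hj)
    choose hFm Cj hCj using hbm
    obtain ⟨C, hC1, hC⟩ : ∃ C : ℝ, 1 ≤ C ∧ ∀ j z, |F j z| ≤ C := by
      refine ⟨1 + ∑ j, |Cj j|, ?_, ?_⟩
      · have : 0 ≤ ∑ j, |Cj j| := Finset.sum_nonneg fun _ _ => abs_nonneg _
        linarith
      · intro j z
        have h1 : |Cj j| ≤ ∑ j, |Cj j| :=
          Finset.single_le_sum (f := fun j => |Cj j|) (fun _ _ => abs_nonneg _) (Finset.mem_univ j)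
        have h2 := hCj j z
        have h3 := le_abs_self (Cj j)
        linarith
    have hC0 : 0 < C := by linarith
    unfold Cv
    apply conv_of_approx
    intro δ hδ ε hε
    obtain ⟨v, hv, hve⟩ := (hL j0 (Finset.mem_insert_self _ _)).2 (ε * (δ / C ^ m)) (by positivity)
    refine ⟨fun N p => AV (RR Φ) a (FF (Function.update F j0 v)) N p, ?_, ?_⟩
    · refine ih (Function.update F j0 v) ?_ ?_
      · intro j hj
        have hne : j ≠ j0 := fun h => hj0 (h ▸ hj)
        rw [Function.update_of_ne hne]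
        exact hL j (Finset.mem_insert_of_mem hj)
      · intro j hj
        by_cases hne : j = j0
        · subst hne
          rw [Function.update_self]
          exact hv
        · rw [Function.update_of_ne hne]
          exact hQ j (by
            rw [Finset.mem_insert]
            push Not
            exact ⟨hne, hj⟩)
    · obtain ⟨hvm, D, hD⟩ := QS_bmr hv
      have hum : Measurable fun z : X × X => |F j0 z - v z| := ((hFm j0).sub hvm).abs
      have hu : Measurable fun q : X × (Fin m → X) => |F j0 (q.1, q.2 j0) - v (q.1, q.2 j0)| :=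
        hum.comp (mp_ev η j0).measurable
      have hsm := avg_small (η.prod (Measure.pi fun _ : Fin m => η)) (mp_RR η Φ hA) (a j0)
        (fun q : X × (Fin m → X) => |F j0 (q.1, q.2 j0) - v (q.1, q.2 j0)|) hu (C + D)
        (fun _ => abs_nonneg _) (fun q => (abs_sub _ _).trans (add_le_add (hC _ _) (hD _)))
        (δ / C ^ m) (by positivity)
      refine (measure_mono ?_).trans (hsm.trans (ENNReal.ofReal_le_ofReal ?_))
      · intro p hp hev
        apply hp
        filter_upwards [hev] with N hN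
        refine (AV_diff Φ a F j0 v C hC1 hC N p).trans ?_
        calc C ^ m * _ ≤ C ^ m * (δ / C ^ m) := mul_le_mul_of_nonneg_left hN (by positivity)
          _ = δ := by field_simp
      · rw [div_le_iff₀ (by positivity)]
        refine le_trans (le_of_eq ?_) hve
        have h4 := integral_map (μ := η.prod (Measure.pi fun _ : Fin m => η))
          (φ := fun p : X × (Fin m → X) => (p.1, p.2 j0)) (f := fun z : X × X => |F j0 z - v z|)
          (mp_ev η j0).measurable.aemeasurable hum.aestronglyMeasurable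
        rw [(mp_ev η j0).map_eq] at h4
        exact h4.symm

theorem t (h : PRD) : Pool.Agent.H80IE.SPN := by
  intro X _ _ η _ Φ hA m a ha F hF
  exact stepC h η Φ hA m a ha univ F (fun j _ => hF j) (fun j hj => absurd (Finset.mem_univ j) hj)

end Pool.Agent.H80IE.SPN
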