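import Pool.Agent.H80IE.BapBase

set_option autoImplicit false

open Filter Topology MeasureTheory ProbabilityTheory

namespace Pool.Agent.H80IE

open Pool.Agent.Y311.UB Pool.Agent.Y311.CX Pool.Agent.H80GE

theorem tp_avg {p : ℤ → ℂ} (hp : p ∈ TP ℤ) : ∃ L, Tendsto (fun N : ℕ => av N (fun n => p n)) atTop (𝓝 L) := by
  refine Submodule.span_induction
    (p := fun (f : ℤ → ℂ) _ => ∃ L, Tendsto (fun N : ℕ => av N (fun n => f n)) atTop (𝓝 L)) ?_ ?_ ?_ ?_ hp
  · intro χ hχ
    refine ⟨_, (avg_pow (hχ.2 1)).congr fun N => ?_⟩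
    unfold av
    simp only [ch_pow hχ]
  · refine ⟨0, tendsto_const_nhds.congr fun N => ?_⟩
    unfold av
    simp
  · rintro f g _ _ ⟨L, hL⟩ ⟨M, hM⟩
    refine ⟨L + M, (hL.add hM).congr fun N => ?_⟩
    unfold av
    simp only [Pi.add_apply]
    rw [← mul_add, ← Finset.sum_add_distrib]
  · rintro c f _ ⟨L, hL⟩
    refine ⟨c * L, (hL.const_mul c).congr fun N => ?_⟩
    unfold av
    simp only [Pi.smul_apply, smul_eq_mul]
    rw [mul_left_comm, Finset.mul_sum]

theorem BAPA.t : BAPA := by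
  intro b hb
  apply cauchySeq_tendsto_of_complete
  rw [Metric.cauchySeq_iff]
  intro ε hε
  obtain ⟨p, hp, h1⟩ := bap_one hb (show 0 < ε / 4 by positivity)
  obtain ⟨L, hL⟩ := tp_avg hp
  have h2 := (Metric.tendsto_nhds.1 hL) (ε / 4) (by positivity)
  obtain ⟨N0, hN0⟩ := eventually_atTop.1 (h1.and h2)
  have h3 : ∀ N ≥ N0, dist (av N (fun n => b n)) L < ε / 2 := by
    intro N hN
    obtain ⟨a1, a2⟩ := hN0 N hN
    have h4 := av_sub_le (N := N) (u := fun n : ℕ => b (n : ℤ)) (v := fun n : ℕ => p (n : ℤ)) (C := 1)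
      (g := fun _ => (1 : ℂ)) (fun _ => by simp) a1
    simp only [mul_one] at h4
    rw [dist_eq_norm] at a2 ⊢
    have e : av N (fun n => b n) - L = (av N (fun n => b n) - av N (fun n => p n)) + (av N (fun n => p n) - L) := by ring
    rw [e]
    refine (norm_add_le _ _).trans_lt ?_
    linarith
  refine ⟨N0, fun m hm n hn => ?_⟩
  have h5 := dist_triangle_right (av m (fun n => b n)) (av n (fun n => b n)) L
  have h6 := h3 m hm
  have h7 := h3 n hn
  linarith

end Pool.Agent.H80IE
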