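import Pool.Agent.H80IE.BapBase

set_option autoImplicit false

open Filter Topology MeasureTheory ProbabilityTheory

namespace Pool.Agent.H80IE

open Pool.Agent.Y311.UB Pool.Agent.Y311.CX Pool.Agent.H80GE

theorem BAPL.t : BAPL := by
  intro b a ha hb ε hε
  have haR : (1 : ℝ) ≤ a := by exact_mod_cast ha
  obtain ⟨p, hp, h1⟩ := hb (ε / (3 * a)) (by positivity)
  refine ⟨fun n => p (a * n + a), ?_, ?_⟩
  · refine Submodule.span_induction
      (p := fun (f : ℤ → ℂ) _ => (fun n : ℤ => f (a * n + a)) ∈ TP ℤ) ?_ ?_ ?_ ?_ hp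
    · intro χ hχ
      have h2 : (fun n : ℤ => χ (a * n + a)) = χ a • fun n : ℤ => χ (a * n) := by
        funext n
        simp only [Pi.smul_apply, smul_eq_mul]
        rw [hχ.1, mul_comm]
      rw [h2]
      refine (TP ℤ).smul_mem _ (Submodule.subset_span ⟨fun m n => ?_, fun n => hχ.2 _⟩)
      simp only [mul_add]
      exact hχ.1 _ _
    · exact (TP ℤ).zero_mem
    · intro f g _ _ h1 h2
      exact (TP ℤ).add_mem h1 h2
    · intro c f _ h1
      exact (TP ℤ).smul_mem c h1
  · have h2 : Tendsto (fun N : ℕ => a * N + a) atTop atTop := by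
      refine tendsto_atTop_mono (fun N => ?_) tendsto_id
      simp only [id]
      nlinarith
    have h3 := h2.eventually h1
    filter_upwards [h3] with N hN
    have h4 : sd N (fun n => ‖b (a * n + a) - p (a * n + a)‖) ≤ sd (a * N + a) (fun n => ‖b n - p n‖) := by
      unfold sd
      have hinj : Set.InjOn (fun n : ℤ => (a : ℤ) * n + a) (Finset.Icc (-(N : ℤ)) N : Finset ℤ) := by
        intro x _ y _ hxy
        simp only [add_left_inj] at hxy
        have h0 : (a : ℤ) ≠ 0 := by exact_mod_cast ha.ne'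
        exact mul_left_cancel₀ h0 hxy
      rw [← Finset.sum_image (f := fun n => ‖b n - p n‖) (g := fun n : ℤ => (a : ℤ) * n + a) hinj]
      refine Finset.sum_le_sum_of_subset_of_nonneg ?_ fun _ _ _ => norm_nonneg _
      intro n hn
      rw [Finset.mem_image] at hn
      obtain ⟨m, hm, rfl⟩ := hn
      rw [Finset.mem_Icc] at hm ⊢
      have ha' : (0 : ℤ) < a := by exact_mod_cast ha
      push_cast
      constructor <;> nlinarith [hm.1, hm.2]
    refine h4.trans (hN.trans ?_)
    push_cast
    rw [div_mul_eq_mul_div, div_le_iff₀ (by positivity)]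
    have hN0 : (0 : ℝ) ≤ N := Nat.cast_nonneg N
    nlinarith [mul_pos hε (by linarith : (0:ℝ) < a), mul_nonneg hε.le hN0, mul_nonneg (mul_nonneg hε.le hN0) (by linarith : (0:ℝ) ≤ a)]

end Pool.Agent.H80IE
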