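import Pool.Agent.H80IE.BapBase

set_option autoImplicit false

open Filter Topology MeasureTheory ProbabilityTheory

namespace Pool.Agent.H80IE

open Pool.Agent.Y311.UB Pool.Agent.Y311.CX Pool.Agent.H80GE

theorem BAPZ.t : BAPZ := by
  intro b g C hb hg hχ
  have htp : ∀ p ∈ TP ℤ, Tendsto (fun N : ℕ => av N (fun n => p n * g n)) atTop (𝓝 0) := by
    intro p hp
    refine Submodule.span_induction
      (p := fun (f : ℤ → ℂ) _ => Tendsto (fun N : ℕ => av N (fun n => f n * g n)) atTop (𝓝 0)) ?_ ?_ ?_ ?_ hp
    · intro χ h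
      exact hχ χ h
    · refine tendsto_const_nhds.congr fun N => ?_
      unfold av
      simp
    · intro f f' _ _ h1 h2
      have h3 := h1.add h2
      rw [add_zero] at h3
      refine h3.congr fun N => ?_
      unfold av
      simp only [Pi.add_apply, add_mul]
      rw [← mul_add, ← Finset.sum_add_distrib]
    · intro c f _ h1
      have h3 := h1.const_mul c
      rw [mul_zero] at h3
      refine h3.congr fun N => ?_
      unfold av
      simp only [Pi.smul_apply, smul_eq_mul, mul_assoc]
      rw [mul_left_comm, Finset.mul_sum]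
  have hC0 : 0 ≤ C := (norm_nonneg _).trans (hg 0)
  rw [Metric.tendsto_nhds]
  intro ε hε
  obtain ⟨p, hp, h1⟩ := bap_one hb (show 0 < ε / (2 * (C + 1)) by positivity)
  have h2 := (Metric.tendsto_nhds.1 (htp p hp)) (ε / 2) (by positivity)
  filter_upwards [h1, h2] with N a1 a2
  have h4 := av_sub_le (N := N) (u := fun n : ℕ => b (n : ℤ)) (v := fun n : ℕ => p (n : ℤ)) hg a1
  rw [dist_eq_norm, sub_zero] at a2 ⊢
  have e : av N (fun n => b n * g n) = (av N (fun n => b n * g n) - av N (fun n => p n * g n)) +
      av N (fun n => p n * g n) := by ring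
  rw [e]
  refine (norm_add_le _ _).trans_lt ?_
  have h5 : ε / (2 * (C + 1)) * C ≤ ε / 2 := by
    rw [div_mul_eq_mul_div, div_le_div_iff₀ (by positivity) (by positivity)]
    nlinarith
  linarith

end Pool.Agent.H80IE
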