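import Pool.Agent.H80IE.Stm

set_option autoImplicit false

open Filter Topology MeasureTheory ProbabilityTheory

namespace Pool.Agent.H80IE

open Pool.Agent.Y311.UB Pool.Agent.Y311.CX Pool.Agent.H80GE

theorem EOR.t (hZ : ZK) : EOR := by
  intro X _ _ μ _ Φ h w hw horth
  have h2 : Act (S2 μ Φ) (D2 Φ) := h.rel (w := 1) 0
  have hW : BMr (fun z : X × X => w z.1 * w z.2) := (hw.comp measurable_fst).mul (hw.comp measurable_snd)
  obtain ⟨hWm, C, hC⟩ := hW
  have hC' : ∀ z : X × X, |w z.1 * w z.2| ≤ |C| := fun z => (hC z).trans (le_abs_self _)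
  refine energy_zero (w := (1 : ℤ)) h2 hWm (abs_nonneg C) hC' ?_
  intro k hk
  have h3 := int_Kf (μ := μ) (Φ := Φ) (w := (1 : ℤ)) hw hk.1 hw
  have h4 := horth _ (hZ X μ Φ h k hk w hw)
  rw [← h4, ← h3]
  refine integral_congr_ae (Eventually.of_forall fun z => ?_)
  simp only
  ring

end Pool.Agent.H80IE
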