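import Pool.Agent.H80IE.RelBase
import Pool.Agent.H80IE.LAALG

set_option autoImplicit false

open Filter Topology MeasureTheory ProbabilityTheory
open scoped ENNReal ProbabilityTheory

namespace Pool.Agent.H80IE

open Pool.Agent.Y311.UB Pool.Agent.Y311.CX Pool.Agent.H80GE

section

variable {X : Type} [MeasurableSpace X] [StandardBorelSpace X] {μ : Measure X} [IsProbabilityMeasure μ]
  {Φ : ℤ → Equiv.Perm X}

theorem ae_fib (hD : DIS) (h : Act μ Φ) {p : X × X → Prop} (hp : ∀ᵐ z ∂(S2 μ Φ), p z) :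
    ∀ᵐ x ∂μ, ∀ᵐ z ∂((relK μ Φ 1 x).prod (relK μ Φ 1 x)), p z := by
  obtain ⟨N, hN1, hN2, hN3⟩ := exists_measurable_superset_of_null (ae_iff.1 hp)
  have h1 := hD X μ Φ h (N.indicator fun _ => 1) (measurable_const.indicator hN2)
  rw [lintegral_indicator hN2] at h1
  simp only [lintegral_const, one_mul, Measure.restrict_apply_univ, hN3] at h1
  have hm : Measurable fun x => ∫⁻ z, N.indicator (fun _ => (1 : ℝ≥0∞)) z ∂((relK μ Φ 1 x).prod (relK μ Φ 1 x)) := by
    have := (measurable_const.indicator hN2 : Measurable (N.indicator fun _ : X × X => (1 : ℝ≥0∞))).lintegral_kernel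
      (κ := relK μ Φ 1 ×ₖ relK μ Φ 1)
    simpa only [Kernel.prod_apply] using this
  have h2 := (lintegral_eq_zero_iff hm).1 h1.symm
  filter_upwards [h2] with x hx
  have h3 : ∫⁻ z, N.indicator (fun _ => (1 : ℝ≥0∞)) z ∂((relK μ Φ 1 x).prod (relK μ Φ 1 x)) = 0 := hx
  rw [lintegral_indicator hN2] at h3
  simp only [lintegral_const, one_mul, Measure.restrict_apply_univ] at h3
  exact measure_mono_null hN1 h3

theorem QS_fib (hD : DIS) (h : Act μ Φ) {u : X × X → ℝ} (hu : QS (S2 μ Φ) (D2 Φ) u) :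
    ∀ᵐ x ∂μ, QS ((relK μ Φ 1 x).prod (relK μ Φ 1 x)) (D2 Φ) u := by
  induction hu with
  | base k g hk hg =>
    filter_upwards [ae_fib hD h hk.2] with x hx
    exact QS.base k g ⟨hk.1, hx⟩ hg
  | add u v _ _ ihu ihv =>
    filter_upwards [ihu, ihv] with x h1 h2
    exact QS.add u v h1 h2

theorem int_fib (hD : DIS) (h : Act μ Φ) {f : X × X → ℝ} (hf : BMr f) (hf0 : ∀ z, 0 ≤ f z) :
    BMr (fun x => ∫ z, f z ∂((relK μ Φ 1 x).prod (relK μ Φ 1 x))) ∧
    ∫ x, (∫ z, f z ∂((relK μ Φ 1 x).prod (relK μ Φ 1 x))) ∂μ = ∫ z, f z ∂(S2 μ Φ) := by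
  have hB : BMr (fun x => ∫ z, f z ∂((relK μ Φ 1 x).prod (relK μ Φ 1 x))) := by
    obtain ⟨hm, C, hC⟩ := hf
    refine ⟨?_, C, fun x => ?_⟩
    · have := (hm.stronglyMeasurable.integral_kernel (κ := relK μ Φ 1 ×ₖ relK μ Φ 1)).measurable
      simpa only [Kernel.prod_apply] using this
    · have := norm_integral_le_of_norm_le_const (μ := (relK μ Φ 1 x).prod (relK μ Φ 1 x)) (f := f) (C := C)
        (Eventually.of_forall fun z => hC z)
      simpa using this
  refine ⟨hB, ?_⟩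
  have hg0 : ∀ x, 0 ≤ ∫ z, f z ∂((relK μ Φ 1 x).prod (relK μ Φ 1 x)) := fun x => integral_nonneg hf0
  have h1 := ofReal_integral_eq_lintegral_ofReal (μ := μ) hB.integrable (Eventually.of_forall hg0)
  have h2 := ofReal_integral_eq_lintegral_ofReal (μ := S2 μ Φ) hf.integrable (Eventually.of_forall hf0)
  have h3 := hD X μ Φ h (fun z => ENNReal.ofReal (f z)) (ENNReal.measurable_ofReal.comp hf.1)
  have h4 : ∀ x, ENNReal.ofReal (∫ z, f z ∂((relK μ Φ 1 x).prod (relK μ Φ 1 x))) =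
      ∫⁻ z, ENNReal.ofReal (f z) ∂((relK μ Φ 1 x).prod (relK μ Φ 1 x)) := fun x =>
    ofReal_integral_eq_lintegral_ofReal hf.integrable (Eventually.of_forall hf0)
  simp_rw [h4] at h1
  rw [← h3, ← h2] at h1
  have h5 := congrArg ENNReal.toReal h1
  rwa [ENNReal.toReal_ofReal (integral_nonneg hg0), ENNReal.toReal_ofReal (integral_nonneg hf0)] at h5

end

theorem FIB.t (hD : DIS) : FIB := by
  intro X _ _ μ _ Φ h s hs
  choose v hv1 hv2 using fun i : ℕ => hs.2.2 (1 / ((i : ℝ) + 1)) (by positivity)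
  have hfB : ∀ i, BMr (fun z : X × X => |s z.1 - v i z|) := fun i => BMr.absSub hs.2.1 (hv1 i).bmr
  have hint := fun i => int_fib hD h (hfB i) (fun z => abs_nonneg _)
  set g : ℕ → X → ℝ := fun i x => ∫ z, |s z.1 - v i z| ∂((relK μ Φ 1 x).prod (relK μ Φ 1 x)) with hg
  have hg0 : ∀ i, 0 ≤ᵐ[μ] g i := fun i => Eventually.of_forall fun x => integral_nonneg fun z => abs_nonneg _
  have hgt : Tendsto (fun i => ∫ x, g i x ∂μ) atTop (𝓝 0) := by
    refine squeeze_zero (fun i => integral_nonneg_of_ae (hg0 i)) (fun i => ?_)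
      (tendsto_one_div_add_atTop_nhds_zero_nat (𝕜 := ℝ))
    rw [(hint i).2]
    exact hv2 i
  have h1 := ae_exists_lt hg0 (fun i => (hint i).1.integrable) hgt
  have h2 : ∀ᵐ x ∂μ, ∀ i, QS ((relK μ Φ 1 x).prod (relK μ Φ 1 x)) (D2 Φ) (v i) := by
    rw [ae_all_iff]
    exact fun i => QS_fib hD h (hv1 i)
  filter_upwards [h1, h2] with x hx1 hx2
  refine ⟨hs.1, hs.2.1, fun ε hε => ?_⟩
  obtain ⟨i, hi⟩ := hx1 ε hε
  exact ⟨v i, hx2 i, hi.le⟩

end Pool.Agent.H80IE
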