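import Pool.Agent.H80IE.Stm

/-!
The projection to a closed algebra (after `Pool.Agent.Y311.CX.Zfac`).
-/

set_option autoImplicit false
set_option linter.unusedSectionVars false

open Filter Topology MeasureTheory

noncomputable section

namespace Pool.Agent.H80IE

open Pool.Agent.Y311.UB Pool.Agent.Y311.CX

section galg

variable {X : Type} [mX : MeasurableSpace X] {μ : Measure X} {A : (X → ℝ) → Prop}

theorem galg_unif (h : CAlg μ A) [IsProbabilityMeasure μ] {s : X → ℝ} (hs : BMr s)
    (hcl : ∀ ε : ℝ, 0 < ε → ∃ s' : X → ℝ, A s' ∧ ∀ x, |s x - s' x| ≤ ε) : A s := by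
  refine h.closed s hs fun ε hε => ?_
  obtain ⟨s', h1, h2⟩ := hcl ε hε
  refine ⟨s', h1, ?_⟩
  have h3 : ∫ x, |s x - s' x| ∂μ ≤ ∫ _, ε ∂μ :=
    integral_mono (BMr.absSub hs (h.bmr _ h1)).integrable (integrable_const _) h2
  simpa using h3

theorem galg_lim (h : CAlg μ A) [IsProbabilityMeasure μ] {s : X → ℝ} (hs : BMr s)
    {t : ℕ → X → ℝ} (ht : ∀ n, A (t n)) {C : ℝ} (hC : ∀ n x, |t n x| ≤ C)
    (hlim : ∀ x, Tendsto (fun n => t n x) atTop (𝓝 (s x))) : A s := by
  refine h.closed s hs fun ε hε => ?_
  obtain ⟨hsm, D, hD⟩ := hs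
  have htend : Tendsto (fun n => ∫ x, |s x - t n x| ∂μ) atTop (𝓝 0) := by
    have h0 : (0 : ℝ) = ∫ x, (0 : ℝ) ∂μ := by simp
    rw [h0]
    refine tendsto_integral_of_dominated_convergence (fun _ => D + C) ?_ (integrable_const _) ?_ ?_
    · intro n
      exact ((hsm.sub (h.bmr _ (ht n)).1).abs).aestronglyMeasurable
    · intro n
      refine Eventually.of_forall fun x => ?_
      rw [Real.norm_eq_abs, abs_abs]
      exact (abs_sub _ _).trans (add_le_add (hD x) (hC n x))
    · refine Eventually.of_forall fun x => ?_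
      have h2 := (tendsto_const_nhds (x := s x)).sub (hlim x)
      rw [sub_self] at h2
      have h3 := h2.abs
      rwa [abs_zero] at h3
  obtain ⟨n, hn⟩ := ((tendsto_order.mp htend).2 ε hε).exists
  exact ⟨t n, ht n, hn.le⟩

theorem galg_union (h : CAlg μ A) {U V : Set X} (hA : A (U.indicator fun _ => (1 : ℝ)))
    (hB : A (V.indicator fun _ => (1 : ℝ))) : A ((U ∪ V).indicator fun _ => (1 : ℝ)) := by
  have h1 := h.add _ _ (h.add _ _ hA hB) (h.smul (-1) _ (h.mul _ _ hA hB))
  have h2 : ((U ∪ V).indicator fun _ => (1 : ℝ)) = fun x => (U.indicator (fun _ => (1 : ℝ)) x +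
      V.indicator (fun _ => (1 : ℝ)) x) + (-1) * (U.indicator (fun _ => (1 : ℝ)) x *
      V.indicator (fun _ => (1 : ℝ)) x) := by
    funext x
    by_cases h1 : x ∈ U <;> by_cases h2 : x ∈ V <;> simp [h1, h2]
  rw [h2]
  exact h1

/-- The σ-algebra of the sets with indicator function in the algebra. -/
def Gs (h : CAlg μ A) [IsProbabilityMeasure μ] : MeasurableSpace X where
  MeasurableSet' U := MeasurableSet U ∧ A (U.indicator fun _ => (1 : ℝ))
  measurableSet_empty := by
    refine ⟨MeasurableSet.empty, ?_⟩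
    rw [Set.indicator_empty]
    exact h.const 0
  measurableSet_compl := by
    intro U hU
    refine ⟨hU.1.compl, ?_⟩
    have h1 := h.add _ _ (h.const 1) (h.smul (-1) _ hU.2)
    have h2 : (Uᶜ.indicator fun _ => (1 : ℝ)) =
        fun x => 1 + (-1) * U.indicator (fun _ => (1 : ℝ)) x := by
      funext x
      by_cases h1 : x ∈ U <;> simp [h1]
    rw [h2]
    exact h1
  measurableSet_iUnion := by
    intro U hU
    have hm : MeasurableSet (⋃ i, U i) := MeasurableSet.iUnion fun i => (hU i).1
    refine ⟨hm, ?_⟩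
    set B : ℕ → Set X := fun n => ⋃ i ∈ Finset.range n, U i with hB
    have hBc : ∀ n, A ((B n).indicator fun _ => (1 : ℝ)) := by
      intro n
      induction n with
      | zero =>
        have h1 : B 0 = ∅ := by simp [hB]
        rw [h1, Set.indicator_empty]
        exact h.const 0
      | succ n ih =>
        have hBs : B (n + 1) = B n ∪ U n := by
          ext y
          simp only [hB, Set.mem_iUnion, Finset.mem_range, Set.mem_union]
          constructor
          · rintro ⟨i, hi, hy⟩
            rcases Nat.lt_succ_iff_lt_or_eq.mp hi with h | h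
            · exact Or.inl ⟨i, h, hy⟩
            · subst h; exact Or.inr hy
          · rintro (⟨i, hi, hy⟩ | hy)
            · exact ⟨i, by omega, hy⟩
            · exact ⟨n, by omega, hy⟩
        rw [hBs]
        exact galg_union h ih (hU n).2
    refine galg_lim h (BMr.indicator hm) hBc (C := 1) (fun n x => ?_) fun x => ?_
    · by_cases h1 : x ∈ B n <;> simp [h1]
    · by_cases h1 : x ∈ ⋃ i, U i
      · obtain ⟨i, hi⟩ := Set.mem_iUnion.mp h1
        refine tendsto_const_nhds.congr' ?_
        filter_upwards [eventually_gt_atTop i] with n hn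
        have h2 : x ∈ B n := by
          simp only [hB, Set.mem_iUnion, Finset.mem_range]
          exact ⟨i, hn, hi⟩
        simp [h1, h2]
      · refine tendsto_const_nhds.congr fun n => ?_
        have h2 : x ∉ B n := by
          intro h3
          simp only [hB, Set.mem_iUnion, Finset.mem_range] at h3
          obtain ⟨i, _, hi⟩ := h3
          exact h1 (Set.mem_iUnion.mpr ⟨i, hi⟩)
        simp [h1, h2]

theorem Gs_le (h : CAlg μ A) [IsProbabilityMeasure μ] : Gs h ≤ mX := fun _ hs => hs.1

theorem galg_of_measurable (h : CAlg μ A) [IsProbabilityMeasure μ] {f : X → ℝ}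
    (hf : Measurable[Gs h] f) {C : ℝ} (hC : ∀ x, |f x| ≤ C) : A f := by
  have hfB : BMr f := ⟨hf.mono (Gs_le h) le_rfl, C, hC⟩
  have hsimple : ∀ φ : @SimpleFunc X (Gs h) ℝ, A fun x => φ x := by
    intro φ
    refine @SimpleFunc.induction X ℝ (Gs h) _ (fun φ => A fun x => φ x) ?_ ?_ φ
    · intro c s hs
      have h0 := h.smul c _ hs.2
      have h1 : (fun x => (@SimpleFunc.piecewise X ℝ (Gs h) s hs
          (@SimpleFunc.const X ℝ (Gs h) c) (@SimpleFunc.const X ℝ (Gs h) 0)) x) =
          fun x => c * s.indicator (fun _ => (1 : ℝ)) x := by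
        funext x
        by_cases hx : x ∈ s <;> simp [hx]
      rw [h1]
      exact h0
    · intro φ₁ φ₂ _ h1 h2
      exact h.add _ _ h1 h2
  have hsm : StronglyMeasurable[Gs h] f := hf.stronglyMeasurable
  have hC0 : 0 ≤ |C| := abs_nonneg C
  refine galg_lim h hfB (t := fun n x => hsm.approxBounded |C| n x) (fun n => hsimple _)
    (C := |C|) (fun n x => ?_) fun x => ?_
  · rw [← Real.norm_eq_abs]
    exact hsm.norm_approxBounded_le hC0 n x
  · exact hsm.tendsto_approxBounded_of_norm_le (c := |C|) (x := x) ((hC x).trans (le_abs_self _))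

theorem galg_comp_cont (h : CAlg μ A) [IsProbabilityMeasure μ] {s : X → ℝ} (hs : A s)
    {φ : ℝ → ℝ} (hφ : Continuous φ) : A fun x => φ (s x) := by
  obtain ⟨hsm, C, hC⟩ := h.bmr _ hs
  have hpoly : ∀ p : Polynomial ℝ, A fun x => p.eval (s x) := by
    intro p
    induction p using Polynomial.induction_on' with
    | add p q hp hq =>
      simp only [Polynomial.eval_add]
      exact h.add _ _ hp hq
    | monomial n a =>
      simp only [Polynomial.eval_monomial]
      have hpow : ∀ n : ℕ, A fun x => s x ^ n := by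
        intro n
        induction n with
        | zero => simpa using h.const 1
        | succ n ih =>
          have := h.mul _ _ ih hs
          simpa [pow_succ] using this
      exact h.smul a _ (hpow n)
  have hcomp := isCompact_Icc (a := -C) (b := C)
  obtain ⟨D, hD⟩ := hcomp.exists_bound_of_continuousOn hφ.continuousOn
  have hB : BMr fun x => φ (s x) :=
    ⟨hφ.measurable.comp hsm, D, fun x => hD _ (abs_le.mp (hC x))⟩
  refine galg_unif h hB fun ε hε => ?_
  obtain ⟨p, hp⟩ := exists_polynomial_near_of_continuousOn (-C) C φ hφ.continuousOn ε hε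
  refine ⟨_, hpoly p, fun x => ?_⟩
  rw [abs_sub_comm]
  exact (hp _ (abs_le.mp (hC x))).le

theorem galg_measurable (h : CAlg μ A) [IsProbabilityMeasure μ] {s : X → ℝ} (hs : A s) :
    Measurable[Gs h] s := by
  refine @measurable_of_Ioi ℝ X _ _ _ (Gs h) _ _ _ s fun c => ?_
  have hm : MeasurableSet (s ⁻¹' Set.Ioi c) := (h.bmr _ hs).1 measurableSet_Ioi
  refine ⟨hm, ?_⟩
  refine galg_lim h (BMr.indicator hm)
    (t := fun n x => min 1 (max 0 ((n : ℝ) * (s x - c)))) (fun n => ?_) (C := 1)
    (fun n x => ?_) fun x => ?_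
  · refine galg_comp_cont h hs (φ := fun t => min 1 (max 0 ((n : ℝ) * (t - c)))) ?_
    fun_prop
  · rw [abs_le]
    constructor
    · have : 0 ≤ min 1 (max 0 ((n : ℝ) * (s x - c))) := le_min zero_le_one (le_max_left _ _)
      linarith
    · exact min_le_left _ _
  · by_cases hx : c < s x
    · rw [Set.indicator_of_mem (by exact hx)]
      obtain ⟨n₀, hn₀⟩ := exists_nat_ge (1 / (s x - c))
      refine tendsto_const_nhds.congr' ?_
      filter_upwards [eventually_ge_atTop n₀] with n hn
      have h1 : 0 < s x - c := by linarith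
      have h2 : 1 ≤ (n : ℝ) * (s x - c) := by
        have h3 : (n₀ : ℝ) ≤ n := by exact_mod_cast hn
        have h4 : 1 / (s x - c) ≤ n := hn₀.trans h3
        rwa [div_le_iff₀ h1] at h4
      rw [max_eq_right (by linarith), min_eq_left h2]
    · rw [Set.indicator_of_notMem (by exact hx)]
      refine tendsto_const_nhds.congr fun n => ?_
      have h1 : (n : ℝ) * (s x - c) ≤ 0 :=
        mul_nonpos_of_nonneg_of_nonpos (Nat.cast_nonneg _) (by linarith)
      rw [max_eq_left h1, min_eq_right zero_le_one]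

end galg

theorem GPROJ.t : GPROJ := by
  intro X _ μ _ A h f hf hf1
  have hm := Gs_le h
  have hfB : BMr f := ⟨hf, 1, hf1⟩
  set E : X → ℝ := μ[f | Gs h] with hE
  have hEm : Measurable[Gs h] E := stronglyMeasurable_condExp.measurable
  set fs : X → ℝ := fun x => max (-1) (min 1 (E x)) with hfs
  have hfsm : Measurable[Gs h] fs :=
    (@measurable_const _ _ _ (Gs h) (-1 : ℝ)).max ((@measurable_const _ _ _ (Gs h) (1 : ℝ)).min hEm)
  have hfs1 : ∀ x, |fs x| ≤ 1 := by
    intro x
    rw [abs_le]
    exact ⟨le_max_left _ _, max_le (by norm_num) (min_le_left _ _)⟩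
  have hEfs : E =ᵐ[μ] fs := by
    have h1 : ∀ᵐ x ∂μ, |E x| ≤ 1 := by
      have := ae_bdd_abs_condExp_of_ae_bdd_abs (m := Gs h) (R := (1 : ℝ)) (μ := μ) (f := f)
        (Eventually.of_forall hf1)
      exact this
    filter_upwards [h1] with x hx
    rw [abs_le] at hx
    rw [hfs]
    simp only
    rw [min_eq_right hx.2, max_eq_right hx.1]
  refine ⟨fs, galg_of_measurable h hfsm hfs1, hfs1, fun s hs => ?_⟩
  have hsm := galg_measurable h hs
  have hsB := h.bmr _ hs
  have h4 : Integrable (f * s) μ := by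
    have := (hfB.mul hsB).integrable (μ := μ)
    exact this
  have h5 : μ[f * s | Gs h] =ᵐ[μ] μ[f | Gs h] * s :=
    condExp_mul_of_stronglyMeasurable_right hsm.stronglyMeasurable h4 hfB.integrable
  have h6 := integral_condExp (μ := μ) hm (f := f * s)
  have h7 : ∫ x, f x * s x ∂μ = ∫ x, fs x * s x ∂μ := by
    have h8 : ∫ x, f x * s x ∂μ = ∫ x, (f * s) x ∂μ := rfl
    rw [h8, ← h6]
    refine integral_congr_ae ?_
    filter_upwards [h5, hEfs] with x hx1 hx2
    rw [hx1, Pi.mul_apply]
    congr 1
  have hfsB : BMr fs := ⟨hfsm.mono hm le_rfl, 1, hfs1⟩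
  have h9 : (fun x => (f x - fs x) * s x) = fun x => f x * s x - fs x * s x := by
    funext x
    ring
  rw [h9, integral_sub (hfB.mul hsB).integrable (hfsB.mul hsB).integrable, h7, sub_self]

end Pool.Agent.H80IE
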