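import Pool.Agent.H80IE.Stm

set_option autoImplicit false

open Filter Topology MeasureTheory ProbabilityTheory

namespace Pool.Agent.H80IE

open Pool.Agent.Y311.UB Pool.Agent.Y311.CX Pool.Agent.H80GE

theorem LEMS.t (h : COR) : LEMS := by
  intro V _ _ ν _ Ψ hA G hG
  have h2 : Act (S2 ν Ψ) (D2 Ψ) := hA.rel (w := 1) 0
  have hW : BMr (fun z : V × V => G z.1 * G z.2) := (hG.comp measurable_fst).mul (hG.comp measurable_snd)
  have h3 := h (V × V) (S2 ν Ψ) (D2 Ψ) h2 _ hW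
  refine h3.congr fun M => ?_
  congr 1
  refine Finset.sum_congr rfl fun m _ => ?_
  have hGm : BMr (fun z => G (Ψ (m : ℤ) z) * G z) := (hG.comp (hA.measurable _)).mul hG
  have h4 := int_relSq (μ := ν) (Φ := Ψ) (w := 1) hGm hGm
  have h5 : ∫ x, (ν[fun z => G (Ψ (m : ℤ) z) * G z | inv Ψ 1]) x ^ 2 ∂ν =
      ∫ x, (ν[fun z => G (Ψ (m : ℤ) z) * G z | inv Ψ 1]) x * (ν[fun z => G (Ψ (m : ℤ) z) * G z | inv Ψ 1]) x ∂ν := by
    congr 1
    funext x
    ring
  rw [h5, ← h4]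
  refine integral_congr_ae (Eventually.of_forall fun z => ?_)
  simp only [D2_apply]
  ring

end Pool.Agent.H80IE
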