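import Pool.Agent.H80IE.Stm

set_option autoImplicit false

open Filter Topology MeasureTheory ProbabilityTheory
open scoped ENNReal ProbabilityTheory

namespace Pool.Agent.H80IE

open Pool.Agent.Y311.UB Pool.Agent.Y311.CX Pool.Agent.H80GE

theorem bap_prod {ι : Type} (s : Finset ι) {f : ι → ℤ → ℂ} {C : ι → ℝ} (hf : ∀ i, BAP (f i))
    (hC : ∀ i n, ‖f i n‖ ≤ C i) : BAP (fun n => ∏ i ∈ s, f i n) := by
  classical
  induction s using Finset.induction_on with
  | empty => simpa using BAP.const 1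
  | insert i s hi ih =>
    have h1 := ih.mul (hf i) (hC i)
    have h2 : (fun n => ∏ j ∈ insert i s, f j n) = fun n => (∏ j ∈ s, f j n) * f i n := by
      funext n
      rw [Finset.prod_insert hi, mul_comm]
    rw [h2]
    exact h1

theorem RR_iter {X : Type} [MeasurableSpace X] {η : Measure X} {Φ : ℤ → Equiv.Perm X} (h : Act η Φ) {m : ℕ} (t : ℕ)
    (p : X × (Fin m → X)) : (RR Φ)^[t] p = (Φ (t : ℤ) p.1, fun j => Φ (t : ℤ) (p.2 j)) := by
  induction t with
  | zero => simp [h.zero_apply]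
  | succ t ih =>
    rw [Function.iterate_succ_apply', ih]
    unfold RR
    simp only [← h.add_apply]
    push_cast
    rw [add_comm (1 : ℤ)]

/-- the product action with different speeds -/
def RP {X : Type} {m : ℕ} (Φ : ℤ → Equiv.Perm X) (a : Fin m → ℕ) (n : ℤ) : Equiv.Perm (Fin m → X) :=
  Equiv.piCongrRight fun j => Φ (n * a j)

theorem RP_apply {X : Type} {m : ℕ} (Φ : ℤ → Equiv.Perm X) (a : Fin m → ℕ) (n : ℤ) (ω : Fin m → X) (j : Fin m) :
    RP Φ a n ω j = Φ (n * a j) (ω j) := rfl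

theorem RP_act {X : Type} [MeasurableSpace X] {η : Measure X} [IsProbabilityMeasure η] {Φ : ℤ → Equiv.Perm X}
    (h : Act η Φ) {m : ℕ} (a : Fin m → ℕ) : Act (Measure.pi fun _ : Fin m => η) (RP Φ a) := by
  refine ⟨fun n n' => ?_, ?_, fun n => ?_⟩
  · ext ω j
    show RP Φ a (n + n') ω j = RP Φ a n (RP Φ a n' ω) j
    rw [RP_apply, RP_apply, RP_apply, ← h.add_apply, add_mul]
  · ext ω j
    show RP Φ a 0 ω j = ω j
    rw [RP_apply, zero_mul, h.zero_apply]
  · exact measurePreserving_pi (fun _ : Fin m => η) (fun _ : Fin m => η) (fun j => h.mp (n * a j))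

theorem PRD.t (hW : WW) (hL : BAPL) : PRD := by
  intro X _ _ η _ Φ h m a ha k g hk hg
  have hR := RP_act h a
  have hG : BMr (fun ω : Fin m → X => ∏ j, g j (Φ (a j) (ω j))) := by
    refine ⟨Finset.measurable_fun_prod _ fun j _ => (hg j).1.comp ((h.measurable _).comp (measurable_pi_apply j)), ?_⟩
    choose C hC using fun j => (hg j).2
    refine ⟨∏ j, C j, fun ω => ?_⟩
    rw [Finset.abs_prod]
    exact Finset.prod_le_prod (fun _ _ => abs_nonneg _) fun j _ => hC j _
  have h1 := hW (Fin m → X) (Measure.pi fun _ : Fin m => η) (RP Φ a) hR _ hG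
  have h2 : ∀ᵐ p ∂(η.prod (Measure.pi fun _ : Fin m => η)), ∀ b : ℤ → ℂ, BAP b → ∃ L, Tendsto (fun N : ℕ =>
      av N (fun n => b n * (((∏ j, g j (Φ (a j) (RP Φ a n p.2 j)) : ℝ)) : ℂ))) atTop (𝓝 L) :=
    Measure.quasiMeasurePreserving_snd.ae h1
  have h3 : ∀ᵐ p ∂(η.prod (Measure.pi fun _ : Fin m => η)), ∀ j, BAP fun n : ℤ =>
      ((k j (D2 Φ (n • (1 : ℤ)) (p.1, p.2 j)) : ℝ) : ℂ) := by
    rw [ae_all_iff]
    intro j
    have hq : MeasurePreserving (Prod.map id (Function.eval j)) (η.prod (Measure.pi fun _ : Fin m => η))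
        (η.prod η) := (MeasurePreserving.id η).prod (measurePreserving_eval (fun _ : Fin m => η) j)
    exact hq.quasiMeasurePreserving.ae (hk j).2
  choose C hC using fun j => (hk j).1.2
  filter_upwards [h2, h3] with p hp2 hp3
  set f : Fin m → ℤ → ℂ := fun j n => ((k j (D2 Φ n (p.1, p.2 j)) : ℝ) : ℂ) with hf
  have hfb : ∀ j, BAP (f j) := by
    intro j
    have e : f j = fun n : ℤ => ((k j (D2 Φ (n • (1 : ℤ)) (p.1, p.2 j)) : ℝ) : ℂ) := by
      funext n
      simp only [hf, smul_eq_mul, mul_one]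
    rw [e]
    exact hp3 j
  have hb := bap_prod Finset.univ (f := fun j n => f j (a j * n + a j)) (C := C)
    (fun j => hL (f j) (a j) (ha j) (hfb j)) (fun j n => by
      simp only [hf]
      rw [Complex.norm_real]
      exact hC j _)
  obtain ⟨L, hL'⟩ := hp2 _ hb
  refine ⟨L, hL'.congr fun N => ?_⟩
  unfold AV
  congr 1
  funext n
  push_cast
  rw [← Finset.prod_mul_distrib]
  refine Finset.prod_congr rfl fun j _ => ?_
  rw [RR_iter h]
  unfold FF
  simp only [hf, D2_apply, RP_apply]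
  rw [← h.add_apply]
  have e1 : ((a j * (n + 1) : ℕ) : ℤ) = (a j : ℤ) * n + a j := by push_cast; ring
  have e2 : (a j : ℤ) + n * a j = (a j : ℤ) * n + a j := by ring
  rw [e1, e2]
  push_cast
  rfl

end Pool.Agent.H80IE
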