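import Pool.Agent.H80IE.Stm

set_option autoImplicit false

open Filter Topology MeasureTheory ProbabilityTheory
open scoped ENNReal ProbabilityTheory

namespace Pool.Agent.H80IE

open Pool.Agent.Y311.UB Pool.Agent.Y311.CX Pool.Agent.H80GE

theorem WW.t (hW : WWZ) (hA : BAPA) (hZ : BAPZ) : WW := by
  intro V _ _ lam _ R h G hG
  obtain ⟨hGm, C, hC⟩ := hG
  set c : ℝ := |C| + 1 with hc
  have hc0 : 0 < c := by positivity
  have hfm : Measurable (fun v => c⁻¹ * G v) := hGm.const_mul _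
  have hf1 : ∀ v, |c⁻¹ * G v| ≤ 1 := by
    intro v
    rw [abs_mul, abs_of_pos (inv_pos.2 hc0), inv_mul_le_iff₀ hc0, mul_one]
    exact (hC v).trans ((le_abs_self C).trans (by rw [hc]; linarith))
  obtain ⟨s, hs, hs1, hsort⟩ := exists_proj h 1 hfm hf1
  set w : V → ℝ := fun v => c⁻¹ * G v - s v with hw
  have hwm : Measurable w := hfm.sub hs.1.1
  have hw2 : ∀ v, |w v| ≤ 2 := by
    intro v
    have h1 := abs_sub (c⁻¹ * G v) (s v)
    have h2 := hf1 v
    have h3 := hs1 v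
    simp only [hw]
    linarith
  have hE : En lam R w = 0 := energy_zero (w := (1 : ℤ)) h hwm (by norm_num) hw2 hsort
  filter_upwards [hW V lam R h w ⟨hwm, 2, hw2⟩ hE, hs.2] with v hv1 hv2 b hb
  have hs' : BAP fun n : ℤ => ((s (R n v) : ℝ) : ℂ) := by
    have e : (fun n : ℤ => ((s (R (n • (1 : ℤ)) v) : ℝ) : ℂ)) = fun n : ℤ => ((s (R n v) : ℝ) : ℂ) := by
      funext n
      rw [smul_eq_mul, mul_one]
    rwa [e] at hv2
  have hbs : BAP fun n : ℤ => b n * ((s (R n v) : ℝ) : ℂ) := hb.mul hs' (C := 1) fun n => by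
    rw [Complex.norm_real]
    exact hs1 _
  obtain ⟨L, hL⟩ := hA _ hbs
  have hz := hZ b (fun n : ℕ => ((w (R n v) : ℝ) : ℂ)) 2 hb (fun n => by
    rw [Complex.norm_real]
    exact hw2 _) hv1
  refine ⟨c * L + c * 0, ((hL.const_mul (c : ℂ)).add (hz.const_mul (c : ℂ))).congr fun N => ?_⟩
  unfold av
  rw [← mul_add, ← mul_add, ← Finset.sum_add_distrib, mul_left_comm, Finset.mul_sum]
  congr 1
  refine Finset.sum_congr rfl fun n _ => ?_
  have hcc : (c : ℂ) ≠ 0 := by exact_mod_cast hc0.ne'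
  simp only [hw]
  push_cast
  field_simp
  ring

end Pool.Agent.H80IE
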