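import Pool.Agent.H80IE.BapBase

set_option autoImplicit false

open Filter Topology MeasureTheory ProbabilityTheory
open scoped ENNReal ProbabilityTheory ComplexConjugate

namespace Pool.Agent.H80IE

open Pool.Agent.Y311.UB Pool.Agent.Y311.CX Pool.Agent.H80GE

theorem WWZ.t (hL : LEMS) : WWZ := by
  intro V _ _ lam _ R h w hw hE
  have hwB : BMr w := hw
  obtain ⟨hwm, C, hC0⟩ := hw
  set D : ℝ := |C| with hDdef
  have hD0 : 0 ≤ D := abs_nonneg _
  have hC : ∀ v, |w v| ≤ D := fun v => (hC0 v).trans (le_abs_self _)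
  have hprod : ∀ d : ℕ, BMr (fun v => w (R (d : ℤ) v) * w v) := fun d => (hwB.comp (h.measurable _)).mul hwB
  set c : ℕ → V → ℝ := fun d => lam[fun v => w (R (d : ℤ) v) * w v | inv R 1] with hc
  have hcm : ∀ d, Measurable (c d) := fun d => stronglyMeasurable_condExp.measurable.mono (inv_le R 1) le_rfl
  have hci : ∀ d, Integrable (c d) lam := fun d => integrable_condExp
  have hcb : ∀ᵐ v ∂lam, ∀ d, |c d v| ≤ D * D := by
    rw [ae_all_iff]
    intro d
    refine ae_bdd_abs_condExp_of_ae_bdd_abs (m := inv R 1) (R := D * D) (Eventually.of_forall fun v => ?_)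
    rw [abs_mul]
    exact mul_le_mul (hC _) (hC _) (abs_nonneg _) hD0
  -- the averages of the correlations
  set g : ℕ → V → ℝ := fun i v => ((i + 1 : ℕ) : ℝ)⁻¹ * ∑ d ∈ Finset.range (i + 1), |c d v| with hg
  have hgm : ∀ i, Measurable (g i) := fun i =>
    (Finset.measurable_fun_sum _ fun d _ => (hcm d).abs).const_mul _
  have hg0 : ∀ i v, 0 ≤ g i v := fun i v => mul_nonneg (by positivity) (Finset.sum_nonneg fun _ _ => abs_nonneg _)
  have hgb : ∀ i, ∀ᵐ v ∂lam, ‖g i v‖ ≤ D * D := by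
    intro i
    filter_upwards [hcb] with v hv
    rw [Real.norm_eq_abs]
    exact abs_avg_le (f := fun d => |c d v|) (by positivity) (fun d => by rw [abs_abs]; exact hv d) (i + 1)
  have hgi : ∀ i, Integrable (g i) lam := fun i => Integrable.of_bound (hgm i).aestronglyMeasurable _ (hgb i)
  have hg2i : ∀ i, Integrable (fun v => g i v ^ 2) lam := by
    intro i
    refine Integrable.of_bound ((hgm i).pow_const 2).aestronglyMeasurable ((D * D) ^ 2) ?_
    filter_upwards [hgb i] with v hv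
    rw [norm_pow]
    exact pow_le_pow_left₀ (norm_nonneg _) hv 2
  have hc2i : ∀ d, Integrable (fun v => c d v ^ 2) lam := by
    intro d
    refine Integrable.of_bound ((hcm d).pow_const 2).aestronglyMeasurable ((D * D) ^ 2) ?_
    filter_upwards [hcb] with v hv
    rw [norm_pow, Real.norm_eq_abs]
    exact pow_le_pow_left₀ (abs_nonneg _) (hv d) 2
  have hlems := hL V lam R h w hwB
  rw [hE] at hlems
  have hlems1 := (tendsto_add_atTop_iff_nat 1).2 hlems
  have hgt : Tendsto (fun i => ∫ v, g i v ∂lam) atTop (𝓝 0) := by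
    have h1 := hlems1.sqrt
    rw [Real.sqrt_zero] at h1
    refine squeeze_zero (fun i => integral_nonneg (hg0 i)) (fun i => ?_) h1
    apply Real.le_sqrt_of_sq_le
    refine (sq_int_le lam (hgi i) (hg2i i)).trans ?_
    have h2 : ∀ v, g i v ^ 2 ≤ ((i + 1 : ℕ) : ℝ)⁻¹ * ∑ d ∈ Finset.range (i + 1), c d v ^ 2 := by
      intro v
      have h3 := sq_sum_le_card_mul_sum_sq (s := Finset.range (i + 1)) (f := fun d => |c d v|)
      simp only [Finset.card_range, sq_abs] at h3
      have hpos : (0 : ℝ) < ((i + 1 : ℕ) : ℝ) := by positivity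
      simp only [hg]
      rw [mul_pow]
      calc (((i + 1 : ℕ) : ℝ)⁻¹) ^ 2 * (∑ d ∈ Finset.range (i + 1), |c d v|) ^ 2
          ≤ (((i + 1 : ℕ) : ℝ)⁻¹) ^ 2 * (((i + 1 : ℕ) : ℝ) * ∑ d ∈ Finset.range (i + 1), c d v ^ 2) :=
            mul_le_mul_of_nonneg_left h3 (by positivity)
        _ = ((i + 1 : ℕ) : ℝ)⁻¹ * ∑ d ∈ Finset.range (i + 1), c d v ^ 2 := by field_simp
    have h4 : Integrable (fun v => ((i + 1 : ℕ) : ℝ)⁻¹ * ∑ d ∈ Finset.range (i + 1), c d v ^ 2) lam :=
      (integrable_finsetSum _ fun d _ => hc2i d).const_mul _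
    refine (integral_mono (hg2i i) h4 h2).trans (le_of_eq ?_)
    rw [integral_const_mul, integral_finsetSum _ fun d _ => hc2i d]
  have hsmall := ae_exists_lt (fun i => Eventually.of_forall (hg0 i)) hgi hgt
  have hbirk : ∀ᵐ v ∂lam, ∀ d : ℕ, Tendsto (fun N : ℕ => (N : ℝ)⁻¹ * ∑ n ∈ Finset.range N,
      w (R (d : ℤ) (R (n : ℤ) v)) * w (R (n : ℤ) v)) atTop (𝓝 (c d v)) := by
    rw [ae_all_iff]
    intro d
    filter_upwards [h.birkhoff 1 (hprod d)] with v hv
    refine hv.congr fun N => ?_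
    simp
  filter_upwards [hsmall, hbirk] with v hv1 hv2 χ hχ
  set u : ℕ → ℂ := fun n => χ n * ((w (R (n : ℤ) v) : ℝ) : ℂ) with hu
  have huD : ∀ n, ‖u n‖ ≤ D := by
    intro n
    simp only [hu]
    rw [norm_mul, hχ.2, one_mul, Complex.norm_real]
    exact hC _
  set cc' : ℕ → ℕ → ℂ := fun d n => u (n + d) * conj (u n) with hcc
  have hcc2 : ∀ d n, cc' d n = χ d * ((w (R (d : ℤ) (R (n : ℤ) v)) * w (R (n : ℤ) v) : ℝ) : ℂ) := by
    intro d n
    simp only [hcc, hu]
    rw [map_mul, Complex.conj_ofReal, Nat.cast_add, hχ.1]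
    have e1 : χ (n : ℤ) * conj (χ (n : ℤ)) = 1 := by
      rw [Complex.mul_conj, Complex.normSq_eq_norm_sq, hχ.2]
      norm_num
    have e2 : R ((n : ℤ) + d) v = R (d : ℤ) (R (n : ℤ) v) := by
      rw [add_comm, h.add_apply]
    rw [e2]
    push_cast
    linear_combination (χ (d : ℤ) * (w (R (d : ℤ) (R (n : ℤ) v)) : ℂ) * (w (R (n : ℤ) v) : ℂ)) * e1
  have hcclim : ∀ d, Tendsto (fun N => av N (cc' d)) atTop (𝓝 (χ d * ((c d v : ℝ) : ℂ))) := by
    intro d
    have h5 := ((Complex.continuous_ofReal.tendsto _).comp (hv2 d)).const_mul (χ d)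
    refine h5.congr fun N => ?_
    unfold av
    simp only [Function.comp_apply, hcc2]
    rw [← Finset.mul_sum]
    push_cast
    ring
  rw [Metric.tendsto_nhds]
  intro ε hε
  obtain ⟨i, hi⟩ := hv1 (ε ^ 2 / 3) (by positivity)
  set H : ℕ := i + 1 with hH
  have hH0 : 0 < H := by omega
  have hHR : (0 : ℝ) < H := by exact_mod_cast hH0
  have hF : Tendsto (fun N : ℕ => ((H : ℝ)⁻¹) ^ 2 * ∑ a ∈ Finset.range H, ∑ b ∈ Finset.range H,
      (av N (cc' (Nat.dist a b))).re + 6 * D ^ 2 * H / N) atTop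
      (𝓝 (((H : ℝ)⁻¹) ^ 2 * ∑ a ∈ Finset.range H, ∑ b ∈ Finset.range H,
        (χ (Nat.dist a b) * ((c (Nat.dist a b) v : ℝ) : ℂ)).re + 0)) := by
    refine Tendsto.add (Tendsto.const_mul _ ?_) (tendsto_const_div_atTop_nhds_zero_nat _)
    refine tendsto_finsetSum _ fun a _ => tendsto_finsetSum _ fun b _ => ?_
    exact (Complex.continuous_re.tendsto _).comp (hcclim _)
  have hlimle : ((H : ℝ)⁻¹) ^ 2 * ∑ a ∈ Finset.range H, ∑ b ∈ Finset.range H,
        (χ (Nat.dist a b) * ((c (Nat.dist a b) v : ℝ) : ℂ)).re + 0 ≤ 2 * g i v := by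
    rw [add_zero]
    have h6 : ∑ a ∈ Finset.range H, ∑ b ∈ Finset.range H,
        (χ (Nat.dist a b) * ((c (Nat.dist a b) v : ℝ) : ℂ)).re ≤
        ∑ a ∈ Finset.range H, ∑ b ∈ Finset.range H, |c (Nat.dist a b) v| := by
      refine Finset.sum_le_sum fun a _ => Finset.sum_le_sum fun b _ => ?_
      refine (Complex.re_le_norm _).trans ?_
      rw [norm_mul, hχ.2, one_mul, Complex.norm_real, Real.norm_eq_abs]
    have h7 := sum_dist_le H (fun d => |c d v|) (fun d => abs_nonneg _)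
    calc ((H : ℝ)⁻¹) ^ 2 * ∑ a ∈ Finset.range H, ∑ b ∈ Finset.range H,
          (χ (Nat.dist a b) * ((c (Nat.dist a b) v : ℝ) : ℂ)).re
        ≤ ((H : ℝ)⁻¹) ^ 2 * (2 * H * ∑ d ∈ Finset.range H, |c d v|) :=
          mul_le_mul_of_nonneg_left (h6.trans h7) (by positivity)
      _ = 2 * g i v := by
          simp only [hg]
          rw [← hH]
          field_simp
  have hev := (tendsto_order.1 hF).2 (ε ^ 2) (by
    have : 2 * g i v < ε ^ 2 := by nlinarith
    linarith)
  filter_upwards [hev, eventually_gt_atTop 0] with N hN hN0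
  have hvdc := vdc_cor (Measure.dirac ()) (u := fun n (_ : Unit) => u n) (fun n => aestronglyMeasurable_const)
    (D := D) (fun n _ => huD n) cc' (fun d n => by simp [hcc]) N H hN0 hH0
  simp only [integral_dirac] at hvdc
  have h8 : ‖av N u‖ ^ 2 < ε ^ 2 := lt_of_le_of_lt hvdc hN
  rw [dist_eq_norm, sub_zero]
  exact lt_of_pow_lt_pow_left₀ 2 hε.le h8

end Pool.Agent.H80IE
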