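import Pool.Agent.H80IE.LAALG

set_option autoImplicit false

open Filter Topology MeasureTheory ProbabilityTheory
open scoped ENNReal ProbabilityTheory

namespace Pool.Agent.H80IE

open Pool.Agent.Y311.UB Pool.Agent.Y311.CX Pool.Agent.H80GE

theorem QS.sum' {X : Type} [MeasurableSpace X] {ν : Measure (X × X)} {Ψ : ℤ → Equiv.Perm (X × X)}
    {F : ℕ → X × X → ℝ} (hF : ∀ n, QS ν Ψ (F n)) (H : ℕ) : QS ν Ψ (fun z => ∑ n ∈ Finset.range H, F n z) := by
  induction H with
  | zero => simpa using QS.const' (ν := ν) (Ψ := Ψ) 0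
  | succ H ih =>
    have h1 : (fun z : X × X => ∑ n ∈ Finset.range (H + 1), F n z) = fun z => ∑ n ∈ Finset.range H, F n z + F H z := by
      funext z
      rw [Finset.sum_range_succ]
    rw [h1]
    exact QS.add _ _ ih (hF H)

theorem ZK.t (hFA : FAV) : ZK := by
  intro X _ _ μ _ Φ h k hk w hw
  have hKB : BMr (Kf μ Φ 1 k w) := Kf_BMr hk.1 hw
  refine ⟨hKB, hKB.comp measurable_fst, fun ε hε => ?_⟩
  have hu : BMr (fun z : X × X => k z * w z.2) := hk.1.mul (hw.comp measurable_snd)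
  have h1 := hFA X μ Φ h _ hu
  obtain ⟨H, hH⟩ := ((tendsto_order.1 h1).2 ε hε).exists
  refine ⟨fun z => (H : ℝ)⁻¹ * ∑ n ∈ Finset.range H, k (z.1, Φ (n : ℤ) z.2) * w (Φ (n : ℤ) z.2), ?_, ?_⟩
  · refine (QS.sum' (fun n => ?_) H).smul' _
    refine QS.base (fun z : X × X => k (z.1, Φ (n : ℤ) z.2)) (fun y => w (Φ (n : ℤ) y)) ⟨?_, ?_⟩
      (hw.comp (h.measurable _))
    · exact hk.1.comp (measurable_fst.prodMk ((h.measurable _).comp measurable_snd))
    · have h2 := (relSq_snd h 1 (n : ℤ)).quasiMeasurePreserving.ae hk.2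
      filter_upwards [h2] with z hz
      have h3 : (fun m : ℤ => ((k ((D2 Φ (m • (1 : ℤ)) z).1, Φ (n : ℤ) (D2 Φ (m • (1 : ℤ)) z).2) : ℝ) : ℂ)) =
          fun m : ℤ => ((k (D2 Φ (m • (1 : ℤ)) (Prod.map id (Φ ((n : ℤ) • (1 : ℤ))) z)) : ℝ) : ℂ) := by
        funext m
        rw [D2_apply, D2_apply]
        simp only [Prod.map_fst, Prod.map_snd, id_eq, smul_eq_mul, mul_one]
        rw [h.comm_apply]
      rw [h3]
      exact hz
  · refine le_trans (le_of_eq ?_) hH.le
    refine integral_congr_ae (Eventually.of_forall fun z => ?_)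
    simp only
    rw [abs_sub_comm]
    rfl

end Pool.Agent.H80IE
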