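import Pool.Agent.H80IE.HK2
import Pool.Agent.H80IE.WW
import Pool.Agent.H80IE.WWZ
import Pool.Agent.H80IE.PRD
import Pool.Agent.H80IE.ZK
import Pool.Agent.H80IE.FIB
import Pool.Agent.H80IE.GPROJ
import Pool.Agent.H80IE.COR
import Pool.Agent.H80IE.LEMS
import Pool.Agent.H80IE.EOR
import Pool.Agent.H80IE.BAPA
import Pool.Agent.H80IE.BAPZ
import Pool.Agent.H80IE.BAPL
import Pool.Agent.H80IE.FERG
import Pool.Agent.H80IE.FAV

/-!
Assembly: the decomposition and the multilinear expansion.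
-/

set_option autoImplicit false

open Filter Topology MeasureTheory ProbabilityTheory
open scoped ENNReal ProbabilityTheory ComplexConjugate

namespace Pool.Agent.H80IE

open Pool.Agent.Y311.UB Pool.Agent.Y311.CX Pool.Agent.H80GE

section

variable {X : Type} [MeasurableSpace X] [StandardBorelSpace X] {μ : Measure X} [IsProbabilityMeasure μ]
  {Φ : ℤ → Equiv.Perm X}

theorem ZA_calg (μ : Measure X) [IsProbabilityMeasure μ] (Φ : ℤ → Equiv.Perm X) : CAlg μ (ZA μ Φ) := by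
  have h := LAALG.t X (S2 μ Φ) (D2 Φ)
  refine ⟨fun f hf => hf.1, fun f g hf hg => ⟨BMr.add' hf.1 hg.1, h.add _ _ hf.2 hg.2⟩,
    fun f g hf hg => ⟨hf.1.mul hg.1, h.mul _ _ hf.2 hg.2⟩, fun c f hf => ⟨BMr.smul' hf.1 c, h.smul c _ hf.2⟩,
    fun c => ⟨⟨measurable_const, |c|, fun _ => le_rfl⟩, h.const c⟩, fun f hf hcl => ⟨hf, ?_⟩⟩
  refine h.closed _ (hf.comp measurable_fst) fun ε hε => ?_
  obtain ⟨s, hs, h1⟩ := hcl ε hε
  refine ⟨fun z => s z.1, hs.2, ?_⟩
  have h2 := integral_map (μ := S2 μ Φ) (φ := Prod.fst) (relSq_fst μ Φ 1).measurable.aemeasurable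
    (f := fun x => |f x - s x|) (BMr.absSub hf hs.1).1.aestronglyMeasurable
  rw [(relSq_fst μ Φ 1).map_eq] at h2
  rw [← h2]
  exact h1

/-- the decomposition of a bounded function into a good function and a function with vanishing third seminorm -/
theorem decomp (h : Act μ Φ) {f : X → ℝ} (hf : BMr f) :
    ∃ s w : X → ℝ, ZA μ Φ s ∧ BMr w ∧ box μ (Φ 1) 1 2 (fun x => ((w x : ℝ) : ℂ)) = 0 ∧ ∀ x, f x = s x + w x := by
  obtain ⟨hfm, C, hC⟩ := hf
  have hfB : BMr f := ⟨hfm, C, hC⟩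
  set c : ℝ := |C| + 1 with hc
  have hc0 : 0 < c := by positivity
  have hf1 : ∀ x, |c⁻¹ * f x| ≤ 1 := by
    intro x
    rw [abs_mul, abs_of_pos (inv_pos.2 hc0), inv_mul_le_iff₀ hc0, mul_one]
    exact (hC x).trans ((le_abs_self C).trans (by rw [hc]; linarith))
  obtain ⟨fs, hfs, -, hort⟩ := GPROJ.t X μ (ZA μ Φ) (ZA_calg μ Φ) (fun x => c⁻¹ * f x) (hfm.const_mul _) hf1
  have hs : ZA μ Φ (fun x => c * fs x) := (ZA_calg μ Φ).smul c fs hfs
  have hw : BMr (fun x => f x - c * fs x) := by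
    have := BMr.add' hfB (BMr.smul' hs.1 (-1))
    refine ⟨?_, ?_⟩
    · exact hfm.sub hs.1.1
    · obtain ⟨D, hD⟩ := this.2
      refine ⟨D, fun x => ?_⟩
      have e : f x - c * fs x = f x + -1 * (c * fs x) := by ring
      show |f x - c * fs x| ≤ D
      rw [e]
      exact hD x
  refine ⟨fun x => c * fs x, fun x => f x - c * fs x, hs, hw, ?_, fun x => by ring⟩
  refine HK2.t (LEMS.t COR.t) X μ Φ h _ hw (EOR.t (ZK.t (FAV.t FERG.t)) X μ Φ h _ hw fun s hs' => ?_)
  have h1 := hort s hs'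
  have h2 : ∫ x, (f x - c * fs x) * s x ∂μ = c * ∫ x, (c⁻¹ * f x - fs x) * s x ∂μ := by
    rw [← integral_const_mul]
    refine integral_congr_ae (Eventually.of_forall fun x => ?_)
    simp only
    field_simp
  rw [h2, h1, mul_zero]

end

/-- bounded measurable complex functions -/
def BMc {X : Type} [MeasurableSpace X] (f : X → ℂ) : Prop := Measurable f ∧ ∃ C : ℝ, ∀ x, ‖f x‖ ≤ C

section

variable {X : Type} [MeasurableSpace X] [StandardBorelSpace X] {μ : Measure X} [IsProbabilityMeasure μ]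
  {Φ : ℤ → Equiv.Perm X}

theorem BMc.of_real {s : X → ℝ} (hs : BMr s) : BMc (fun x => ((s x : ℝ) : ℂ)) := by
  obtain ⟨hm, C, hC⟩ := hs
  exact ⟨Complex.measurable_ofReal.comp hm, C, fun x => by rw [Complex.norm_real]; exact hC x⟩

theorem unif_bound {m : ℕ} {f : Fin m → X → ℂ} (hf : ∀ j, BMc (f j)) : ∃ C, ∀ j x, ‖f j x‖ ≤ C := by
  choose C hC using fun j => (hf j).2
  refine ⟨∑ j, |C j|, fun j x => (hC j x).trans ((le_abs_self _).trans ?_)⟩
  exact Finset.single_le_sum (f := fun j => |C j|) (fun _ _ => abs_nonneg _) (Finset.mem_univ j)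

/-- the multilinear expansion -/
theorem conv_expand (h : Act μ Φ) {m : ℕ} (a : Fin m → ℕ)
    (hZ : ∀ s : Fin m → X → ℝ, (∀ j, ZA μ Φ (s j)) →
      ∀ᵐ x ∂μ, ∃ L, Tendsto (fun N => AV (Φ 1) a (fun j x => ((s j x : ℝ) : ℂ)) N x) atTop (𝓝 L))
    (hzero : ∀ f : Fin m → X → ℂ, (∀ j, Measurable (f j)) → (∃ C, ∀ j x, ‖f j x‖ ≤ C) →
      (∃ j, box μ (Φ 1) 1 2 (f j) = 0) → ∀ᵐ x ∂μ, Tendsto (fun N => AV (Φ 1) a f N x) atTop (𝓝 0))
    (f : Fin m → X → ℂ) (hf : ∀ j, BMc (f j)) :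
    ∀ᵐ x ∂μ, ∃ L, Tendsto (fun N => AV (Φ 1) a f N x) atTop (𝓝 L) := by
  classical
  have key : ∀ J : Finset (Fin m), ∀ f : Fin m → X → ℂ, (∀ j, BMc (f j)) →
      (∀ j, j ∉ J → ∃ s, ZA μ Φ s ∧ f j = fun x => ((s x : ℝ) : ℂ)) →
      ∀ᵐ x ∂μ, ∃ L, Tendsto (fun N => AV (Φ 1) a f N x) atTop (𝓝 L) := by
    intro J
    induction J using Finset.induction_on with
    | empty =>
      intro f _ hs
      choose s hs1 hs2 using fun j => hs j (Finset.notMem_empty j)
      have e : f = fun j x => ((s j x : ℝ) : ℂ) := funext hs2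
      rw [e]
      exact hZ s hs1
    | insert i J hi ih =>
      intro f hf hs
      obtain ⟨hm, C, hC⟩ := hf i
      have hre : BMr (fun x => (f i x).re) :=
        ⟨Complex.measurable_re.comp hm, C, fun x => (Complex.abs_re_le_norm _).trans (hC x)⟩
      have him : BMr (fun x => (f i x).im) :=
        ⟨Complex.measurable_im.comp hm, C, fun x => (Complex.abs_im_le_norm _).trans (hC x)⟩
      obtain ⟨s1, w1, hs1, hw1, hb1, he1⟩ := decomp h hre
      obtain ⟨s2, w2, hs2, hw2, hb2, he2⟩ := decomp h him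
      have hslot : ∀ g : X → ℂ, BMc g → ∀ j, BMc (slot f i g j) := by
        intro g hg j
        unfold slot
        split_ifs
        · exact hg
        · exact hf j
      have hS : ∀ s, ZA μ Φ s → ∀ᵐ x ∂μ, ∃ L,
          Tendsto (fun N => AV (Φ 1) a (slot f i (fun x => ((s x : ℝ) : ℂ))) N x) atTop (𝓝 L) := by
        intro s hs'
        refine ih _ (hslot _ (BMc.of_real hs'.1)) fun j hj => ?_
        by_cases hji : j = i
        · exact ⟨s, hs', by simp [slot, hji]⟩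
        · obtain ⟨t, ht1, ht2⟩ := hs j (by simp [hji, hj])
          exact ⟨t, ht1, by simp [slot, hji, ht2]⟩
      have hWt : ∀ w, BMr w → box μ (Φ 1) 1 2 (fun x => ((w x : ℝ) : ℂ)) = 0 → ∀ᵐ x ∂μ,
          Tendsto (fun N => AV (Φ 1) a (slot f i (fun x => ((w x : ℝ) : ℂ))) N x) atTop (𝓝 0) := by
        intro w hw hb
        refine hzero _ (fun j => (hslot _ (BMc.of_real hw) j).1) (unif_bound (hslot _ (BMc.of_real hw))) ⟨i, ?_⟩
        simpa [slot] using hb
      have e : f i = (fun x => ((s1 x : ℝ) : ℂ)) + (fun x => ((w1 x : ℝ) : ℂ)) +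
          Complex.I • ((fun x => ((s2 x : ℝ) : ℂ)) + (fun x => ((w2 x : ℝ) : ℂ))) := by
        funext x
        simp only [Pi.add_apply, Pi.smul_apply, smul_eq_mul]
        rw [← Complex.ofReal_add, ← he1, ← Complex.ofReal_add, ← he2, mul_comm Complex.I, Complex.re_add_im]
      filter_upwards [hS s1 hs1, hWt w1 hw1 hb1, hS s2 hs2, hWt w2 hw2 hb2] with x h1 h2 h3 h4
      obtain ⟨L1, h1⟩ := h1
      obtain ⟨L3, h3⟩ := h3
      refine ⟨(L1 + 0) + Complex.I * (L3 + 0), ((h1.add h2).add ((h3.add h4).const_mul _)).congr fun N => ?_⟩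
      have e2 := slot_self f i
      conv_rhs => rw [← e2, e]
      rw [AV_slot_add, AV_slot_add, AV_slot_smul, AV_slot_add]
  exact key Finset.univ f hf fun j hj => absurd (Finset.mem_univ j) hj

end

theorem ww : WW := WW.t (WWZ.t (LEMS.t COR.t)) BAPA.t BAPZ.t

theorem prd : PRD := PRD.t ww BAPL.t

theorem fib : FIB := FIB.t (DIS.t RCO.t)

end Pool.Agent.H80IE
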