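import Pool.Agent.H80IE.Stm

set_option autoImplicit false

open Filter Topology MeasureTheory ProbabilityTheory

namespace Pool.Agent.H80IE

open Pool.Agent.Y311.UB Pool.Agent.Y311.CX Pool.Agent.H80GE

theorem sum_le_sd (N : ℕ) (c : ℤ → ℝ) (h0 : ∀ n, 0 ≤ c n) : ∑ n ∈ Finset.range N, c (n : ℤ) ≤ sd N c := by
  have h1 : ∑ n ∈ (Finset.range N).image (fun n : ℕ => (n : ℤ)), c n = ∑ n ∈ Finset.range N, c (n : ℤ) := by
    rw [Finset.sum_image (fun a _ b _ hab => by simpa using hab)]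
  rw [← h1]
  refine Finset.sum_le_sum_of_subset_of_nonneg ?_ fun _ _ _ => h0 _
  intro n hn
  rw [Finset.mem_image] at hn
  obtain ⟨m, hm, rfl⟩ := hn
  rw [Finset.mem_range] at hm
  rw [Finset.mem_Icc]
  omega

/-- one-sided approximation of almost periodic sequences by trigonometric polynomials -/
theorem bap_one {b : ℤ → ℂ} (hb : BAP b) {ε : ℝ} (hε : 0 < ε) : ∃ p ∈ TP ℤ,
    ∀ᶠ N : ℕ in atTop, (N : ℝ)⁻¹ * ∑ n ∈ Finset.range N, ‖b (n : ℤ) - p (n : ℤ)‖ ≤ ε := by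
  obtain ⟨p, hp, h1⟩ := hb (ε / 3) (by positivity)
  refine ⟨p, hp, ?_⟩
  filter_upwards [h1, eventually_gt_atTop 0] with N hN hN0
  have hNR : (1 : ℝ) ≤ N := by exact_mod_cast hN0
  rw [inv_mul_le_iff₀ (by linarith)]
  refine (sum_le_sd N _ fun n => norm_nonneg _).trans (hN.trans ?_)
  nlinarith

theorem av_sub_le {N : ℕ} {u v : ℕ → ℂ} {C : ℝ} {g : ℕ → ℂ} (hg : ∀ n, ‖g n‖ ≤ C) {ε : ℝ}
    (hN : (N : ℝ)⁻¹ * ∑ n ∈ Finset.range N, ‖u n - v n‖ ≤ ε) :
    ‖av N (fun n => u n * g n) - av N (fun n => v n * g n)‖ ≤ ε * C := by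
  have hC0 : 0 ≤ C := (norm_nonneg _).trans (hg 0)
  unfold av
  rw [← mul_sub, ← Finset.sum_sub_distrib, norm_mul, norm_inv, Complex.norm_natCast]
  calc (N : ℝ)⁻¹ * ‖∑ n ∈ Finset.range N, (u n * g n - v n * g n)‖
      ≤ (N : ℝ)⁻¹ * ∑ n ∈ Finset.range N, ‖u n - v n‖ * C := by
        refine mul_le_mul_of_nonneg_left (norm_sum_le_of_le _ fun n _ => ?_) (by positivity)
        rw [← sub_mul, norm_mul]
        exact mul_le_mul_of_nonneg_left (hg n) (norm_nonneg _)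
    _ = ((N : ℝ)⁻¹ * ∑ n ∈ Finset.range N, ‖u n - v n‖) * C := by
        rw [← Finset.sum_mul, mul_assoc]
    _ ≤ ε * C := mul_le_mul_of_nonneg_right hN hC0

theorem ch_pow {χ : ℤ → ℂ} (hχ : χ ∈ Ch ℤ) (n : ℕ) : χ (n : ℤ) = χ 1 ^ n := by
  induction n with
  | zero =>
    have h1 := hχ.1 0 0
    rw [add_zero] at h1
    have h2 : χ 0 ≠ 0 := by
      intro h
      have := hχ.2 0
      rw [h, norm_zero] at this
      exact zero_ne_one this
    have h3 : χ 0 = 1 := by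
      have : χ 0 * 1 = χ 0 * χ 0 := by rw [mul_one]; exact h1
      exact (mul_left_cancel₀ h2 this).symm
    simpa using h3
  | succ n ih =>
    rw [Nat.cast_succ, hχ.1, ih, pow_succ]

end Pool.Agent.H80IE
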