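import Pool.Agent.H80IE.Asm

/-!
The theorem for skew products.
-/

set_option autoImplicit false

open Filter Topology MeasureTheory ProbabilityTheory
open scoped ENNReal ProbabilityTheory ComplexConjugate

namespace Pool.Agent.H80IE

open Pool.Agent.Y311.UB Pool.Agent.Y311.CX Pool.Agent.H80GE

section

variable {Y K W : Type} [MeasurableSpace Y] [Group K] [MulAction K W]

/-- the extension as a permutation -/
def exE (S : Y ≃ᵐ Y) (σ : Y → K) : Equiv.Perm (Y × W) where
  toFun := exs S σ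
  invFun z := (S.symm z.1, (σ (S.symm z.1))⁻¹ • z.2)
  left_inv z := by simp [exs]
  right_inv z := by simp [exs]

theorem exE_symm_meas [MeasurableSpace K] [MeasurableInv K] [MeasurableSpace W] [MeasurableSMul₂ K W] (S : Y ≃ᵐ Y)
    {σ : Y → K} (hσ : Measurable σ) : Measurable (exE (W := W) S σ).symm := by
  change Measurable (fun z : Y × W => (S.symm z.1, (σ (S.symm z.1))⁻¹ • z.2))
  exact (S.symm.measurable.comp measurable_fst).prodMk
    (((hσ.comp (S.symm.measurable.comp measurable_fst)).inv).smul measurable_snd)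

end

/-- the action of the powers of an invertible measure preserving map -/
theorem act_zpow {X : Type} [MeasurableSpace X] {μ : Measure X} {T : Equiv.Perm X}
    (hT : MeasurePreserving T μ μ) (hTi : Measurable T.symm) : Act μ (fun n : ℤ => (T ^ n : Equiv.Perm X)) :=
  ⟨fun a b => zpow_add T a b, zpow_zero T, fun n => mp_zpow hT hTi n⟩

theorem iso3 (hZA : ZAC) {Y K W : Type} [MeasurableSpace Y] [StandardBorelSpace Y] [Group K] [TopologicalSpace K]
    [IsTopologicalGroup K] [CompactSpace K] [T2Space K] [SecondCountableTopology K] [MeasurableSpace K] [BorelSpace K]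
    [MeasurableSpace W] [StandardBorelSpace W] [MulAction K W] [MeasurableSMul₂ K W] {μ : Measure Y}
    [IsProbabilityMeasure μ] {ρ : Measure K} [ρ.IsHaarMeasure] [IsProbabilityMeasure ρ] (w₀ : W) (S : Y ≃ᵐ Y)
    (hS : MeasurePreserving S μ μ) {σ : Y → K} (hσ : Measurable σ) (a : Fin 3 → ℕ) (hinj : Function.Injective a)
    (ha0 : ∀ j, 0 < a j)
    (hY : ∀ g : Fin 3 → Y → ℂ, (∀ j, Measurable (g j)) → (∃ C, ∀ j y, ‖g j y‖ ≤ C) →
      ∀ᵐ y ∂μ, ∃ L, Tendsto (fun N => AV S a g N y) atTop (𝓝 L))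
    (f : Fin 3 → Y × W → ℂ) (hf : ∀ j, Measurable (f j)) (hfb : ∃ C, ∀ j x, ‖f j x‖ ≤ C) :
    ∀ᵐ x ∂(μ.prod (ρ.map fun k => k • w₀)), ∃ L, Tendsto (fun N => AV (exs S σ) a f N x) atTop (𝓝 L) := by
  have hπm : Measurable (fun k : K => k • w₀) := measurable_id.smul_const w₀
  have hρ' : IsProbabilityMeasure (ρ.map fun k : K => k • w₀) :=
    Measure.isProbabilityMeasure_map hπm.aemeasurable
  have hinv : SMulInvariantMeasure K W (ρ.map fun k : K => k • w₀) := ⟨by
    intro c s hs
    rw [Measure.map_apply hπm hs, Measure.map_apply hπm ((measurable_const_smul c) hs)]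
    have e : (fun k : K => k • w₀) ⁻¹' ((fun x => c • x) ⁻¹' s) = (fun k => c * k) ⁻¹' ((fun k : K => k • w₀) ⁻¹' s) := by
      ext k
      simp only [Set.mem_preimage, mul_smul]
    rw [e, measure_preimage_mul]⟩
  set Φ : ℤ → Equiv.Perm (Y × W) := fun n => exE S σ ^ n with hΦ
  have hmp : MeasurePreserving (exE (W := W) S σ) (μ.prod (ρ.map fun k => k • w₀)) (μ.prod (ρ.map fun k => k • w₀)) :=
    mp_exs μ _ hS hσ
  have hact : Act (μ.prod (ρ.map fun k => k • w₀)) Φ := act_zpow hmp (exE_symm_meas S hσ)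
  have hΦ1 : (Φ 1 : Y × W → Y × W) = exs S σ := by
    simp only [hΦ, zpow_one]
    rfl
  have hmain := conv_expand hact a (fun s hs => hZA (Y × W) _ Φ hact 3 a ha0 s hs) (fun g hg hgb hj => by
    rw [hΦ1]
    refine iso_zero S hS hσ w₀ (by norm_num) a hinj ha0 hY g hg hgb ?_
    obtain ⟨j, hj⟩ := hj
    rw [hΦ1] at hj
    exact ⟨j, hj⟩) f (fun j => ⟨hf j, by
      obtain ⟨C, hC⟩ := hfb
      exact ⟨C, fun x => hC j x⟩⟩)
  rw [hΦ1] at hmain
  exact hmain

end Pool.Agent.H80IE
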