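import Pool.Agent.H80IE.Stm
import Pool.Agent.R291.QDErg4

/-!
Basic facts on the conditional measures (after `Pool.Agent.R291.QDErg2`).
-/

set_option autoImplicit false

open Filter Topology MeasureTheory ProbabilityTheory
open scoped ENNReal ProbabilityTheory

namespace Pool.Agent.H80IE

open Pool.Agent.Y311.UB Pool.Agent.Y311.CX Pool.Agent.H80GE

section

variable {X : Type} [MeasurableSpace X] [StandardBorelSpace X] (μ : Measure X) [IsProbabilityMeasure μ]
  (Φ : ℤ → Equiv.Perm X)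

theorem relK_meas {s : Set X} (hs : MeasurableSet s) : Measurable[inv Φ 1] (fun z => relK μ Φ 1 z s) :=
  measurable_condExpKernel hs

theorem relK_comp : relK μ Φ 1 ∘ₘ μ = μ := by
  ext s hs
  rw [Measure.bind_apply hs (Kernel.aemeasurable _)]
  have h := congrArg (fun m => m s) (condExpKernel_comp_trim (μ := μ) (inv_le Φ 1))
  rw [Measure.bind_apply hs (Kernel.aemeasurable _)] at h
  rw [lintegral_trim (inv_le Φ 1) (measurable_condExpKernel hs)] at h
  exact h

theorem relK_ae {p : X → Prop} (h : ∀ᵐ x ∂μ, p x) : ∀ᵐ z ∂μ, ∀ᵐ x ∂(relK μ Φ 1 z), p x := by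
  refine Measure.ae_ae_of_ae_comp ?_
  rw [relK_comp]
  exact h

theorem relK_lintegral {F : X → ℝ≥0∞} (hF : Measurable F) :
    ∫⁻ z, ∫⁻ x, F x ∂(relK μ Φ 1 z) ∂μ = ∫⁻ x, F x ∂μ := by
  conv_rhs => rw [← relK_comp μ Φ]
  rw [Measure.lintegral_bind (Kernel.aemeasurable _) hF.aemeasurable]

theorem relK_integral {f : X → ℝ} (hf : Integrable f μ) :
    μ[f | inv Φ 1] =ᵐ[μ] fun z => ∫ x, f x ∂(relK μ Φ 1 z) :=
  condExp_ae_eq_integral_condExpKernel (inv_le Φ 1) hf

theorem relK_const {u : X → ℝ} (hu : Measurable[inv Φ 1] u) {C : ℝ} (hC : ∀ x, |u x| ≤ C) :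
    ∀ᵐ z ∂μ, ∀ᵐ x ∂(relK μ Φ 1 z), u x = u z := by
  have hum : Measurable u := hu.mono (inv_le Φ 1) le_rfl
  have hui : Integrable u μ := Integrable.of_bound hum.aestronglyMeasurable C
    (Filter.Eventually.of_forall fun x => hC x)
  have hu2m : Measurable (fun x => u x * u x) := hum.mul hum
  have hC0 : ∀ x : X, |u x * u x| ≤ C * C := fun x => by
    rw [abs_mul]
    exact mul_le_mul (hC x) (hC x) (abs_nonneg _) ((abs_nonneg _).trans (hC x))
  have hu2i : Integrable (fun x => u x * u x) μ := Integrable.of_bound hu2m.aestronglyMeasurable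
    (C * C) (Filter.Eventually.of_forall fun x => hC0 x)
  have e1 : μ[u | inv Φ 1] = u :=
    condExp_of_stronglyMeasurable (inv_le Φ 1) hu.stronglyMeasurable hui
  have e2 : μ[(fun x => u x * u x) | inv Φ 1] = fun x => u x * u x :=
    condExp_of_stronglyMeasurable (inv_le Φ 1) (hu.mul hu).stronglyMeasurable hu2i
  have h1 := relK_integral μ Φ hui
  have h2 := relK_integral μ Φ hu2i
  rw [e1] at h1
  rw [e2] at h2
  filter_upwards [h1, h2] with z hz1 hz2
  have hi1 : Integrable u (relK μ Φ 1 z) := Integrable.of_bound hum.aestronglyMeasurable C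
    (Filter.Eventually.of_forall fun x => hC x)
  have hi2 : Integrable (fun x => u x * u x) (relK μ Φ 1 z) :=
    Integrable.of_bound hu2m.aestronglyMeasurable (C * C)
      (Filter.Eventually.of_forall fun x => hC0 x)
  have hexp : (fun x => (u x - u z) ^ 2) = fun x => u x * u x - 2 * u z * u x + u z * u z := by
    funext x
    ring
  have hs : Integrable (fun x => u x * u x - 2 * u z * u x) (relK μ Φ 1 z) :=
    hi2.sub (hi1.const_mul _)
  have h3 : ∫ x, (u x - u z) ^ 2 ∂(relK μ Φ 1 z) = 0 := by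
    rw [hexp, integral_add hs (integrable_const _), integral_sub hi2 (hi1.const_mul _),
      integral_const_mul, ← hz1, ← hz2, integral_const]
    simp
    ring
  have hint : Integrable (fun x => (u x - u z) ^ 2) (relK μ Φ 1 z) := by
    rw [hexp]
    exact hs.add (integrable_const _)
  have h4 := (integral_eq_zero_iff_of_nonneg (fun y => sq_nonneg _) hint).1 h3
  filter_upwards [h4] with y hy
  have h5 : (u y - u z) ^ 2 = 0 := hy
  have h6 := pow_eq_zero_iff (two_ne_zero) |>.1 h5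
  linarith

theorem relK_real_const {B : Set X} (hB : MeasurableSet B) :
    ∀ᵐ z ∂μ, ∀ᵐ x ∂(relK μ Φ 1 z), (relK μ Φ 1 x).real B = (relK μ Φ 1 z).real B := by
  refine relK_const μ Φ (u := fun z => (relK μ Φ 1 z).real B) (relK_meas μ Φ hB).ennreal_toReal (C := 1) ?_
  intro x
  rw [abs_of_nonneg measureReal_nonneg]
  exact measureReal_le_one

end

theorem RCO.t : RCO := by
  intro X _ _ μ _ Φ _
  obtain ⟨C, hCc, hCg, hCp, hCm⟩ := Pool.Agent.R291.QD.exists_countable_piSystem (X := X)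
  have h1 : ∀ᵐ z ∂μ, ∀ B ∈ C, ∀ᵐ x ∂(relK μ Φ 1 z), (relK μ Φ 1 x).real B = (relK μ Φ 1 z).real B := by
    rw [ae_ball_iff hCc]
    exact fun B hB => relK_real_const μ Φ (hCm B hB)
  filter_upwards [h1] with z hz
  have h2 : ∀ᵐ x ∂(relK μ Φ 1 z), ∀ B ∈ C, (relK μ Φ 1 x).real B = (relK μ Φ 1 z).real B := by
    rw [ae_ball_iff hCc]
    exact fun B hB => hz B hB
  filter_upwards [h2] with x hx
  refine ext_of_generate_finite C hCg hCp (fun B hB => ?_) (by simp)
  have h3 := hx B hB
  rw [measureReal_def, measureReal_def] at h3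
  exact (ENNReal.toReal_eq_toReal_iff' (measure_ne_top _ _) (measure_ne_top _ _)).1 h3

theorem DIS.t (hR : RCO) : DIS := by
  intro X _ _ μ _ Φ h F hF
  have h1 : ∫⁻ z, F z ∂(S2 μ Φ) = ∫⁻ x, ∫⁻ y, F (x, y) ∂(relK μ Φ 1 x) ∂μ := by
    unfold S2 relSq
    exact Measure.lintegral_compProd hF
  have hφ : Measurable fun x => ∫⁻ y, F (x, y) ∂(relK μ Φ 1 x) := hF.lintegral_kernel_prod_right'
  rw [h1, ← relK_lintegral μ Φ hφ]
  refine lintegral_congr_ae ?_
  filter_upwards [hR X μ Φ h] with x0 hx0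
  rw [lintegral_prod _ hF.aemeasurable]
  refine lintegral_congr_ae ?_
  filter_upwards [hx0] with x hx
  rw [hx]

end Pool.Agent.H80IE
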