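import Pool.Agent.H80IE.Stm
import Pool.Agent.H80IE.RelBase

/-!
Stub ZAC: convergence of the averages of products of functions in `ZA`.
-/

set_option autoImplicit false

open Filter Topology MeasureTheory ProbabilityTheory
open scoped ENNReal ProbabilityTheory

namespace Pool.Agent.H80IE

open Pool.Agent.Y311.UB Pool.Agent.Y311.CX Pool.Agent.H80GE

theorem RR_iterate_fst {X : Type} {m : ℕ} (Φ : ℤ → Equiv.Perm X) (k : ℕ) (p : X × (Fin m → X)) :
    ((RR Φ)^[k] p).1 = (Φ 1)^[k] p.1 := by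
  induction k generalizing p with
  | zero => rfl
  | succ k ih =>
    rw [Function.iterate_succ_apply, Function.iterate_succ_apply, ih]
    rfl

theorem AV_RR_fst {X : Type} {m : ℕ} (Φ : ℤ → Equiv.Perm X) (a : Fin m → ℕ) (s : Fin m → X → ℝ) (N : ℕ)
    (p : X × (Fin m → X)) :
    AV (RR Φ) a (FF fun j z => s j z.1) N p = AV (Φ 1) a (fun j x => ((s j x : ℝ) : ℂ)) N p.1 := by
  unfold AV
  congr 1
  funext n
  refine Finset.prod_congr rfl fun j _ => ?_
  simp only [FF]
  rw [RR_iterate_fst]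

theorem ZAC.t (h : SPN) (hF : FIB) : ZAC := by
  intro X _ _ μ _ Φ hA m a ha s hs
  have hmeas : ∀ N, Measurable (fun x => AV (Φ 1) a (fun j x => ((s j x : ℝ) : ℂ)) N x) := by
    intro N
    unfold AV av
    refine Measurable.const_mul ?_ _
    refine Finset.measurable_fun_sum _ fun n _ => ?_
    refine Finset.measurable_fun_prod _ fun j _ => ?_
    exact Complex.measurable_ofReal.comp ((hs j).1.1.comp ((hA.measurable 1).iterate _))
  have hset : MeasurableSet {x | ∃ L, Tendsto (fun N => AV (Φ 1) a (fun j x => ((s j x : ℝ) : ℂ)) N x) atTop (𝓝 L)} :=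
    measurableSet_exists_tendsto hmeas
  have hkey : ∀ᵐ x0 ∂μ, ∀ᵐ x ∂(relK μ Φ 1 x0),
      ∃ L, Tendsto (fun N => AV (Φ 1) a (fun j x => ((s j x : ℝ) : ℂ)) N x) atTop (𝓝 L) := by
    filter_upwards [ae_all_iff.2 fun j => hF X μ Φ hA (s j) (hs j), relK_mp hA 1] with x0 hx0 hmp
    have hAη : Act (relK μ Φ 1 x0) Φ := by
      refine ⟨hA.add, hA.zero, fun n => ?_⟩
      have := hmp n
      rwa [smul_eq_mul, mul_one] at this
    have h1 := h X (relK μ Φ 1 x0) Φ hAη m a ha (fun j z => s j z.1) (fun j => (hx0 j).2)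
    have h2 := Measure.ae_ae_of_ae_prod h1
    filter_upwards [h2] with x hx
    obtain ⟨ω, L, hL⟩ := hx.exists
    refine ⟨L, ?_⟩
    simpa only [AV_RR_fst] using hL
  have h3 := Measure.ae_comp_of_ae_ae (μ := μ) (κ := relK μ Φ 1) hset hkey
  rwa [relK_comp] at h3

end Pool.Agent.H80IE
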