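import Pool.Agent.H80IE.Fin
import Pool.Agent.H80IE.ZAC
import Pool.Agent.H80IE.SPN

set_option autoImplicit false

namespace Pool.Agent.H80IE

theorem zac : ZAC := ZAC.t (SPN.t prd) fib

end Pool.Agent.H80IE
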