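import Pool.Agent.H80IE.Stm

set_option autoImplicit false

open Filter Topology MeasureTheory ProbabilityTheory
open scoped ENNReal ProbabilityTheory ComplexConjugate

namespace Pool.Agent.H80IE

open Pool.Agent.Y311.UB Pool.Agent.Y311.CX Pool.Agent.H80GE

theorem limsup_ofReal {a : ℕ → ℝ} {L : ℝ} (h0 : ∀ n, 0 ≤ a n)
    (ht : Tendsto (fun H : ℕ => (H : ℝ)⁻¹ * ∑ h ∈ Finset.range H, a h) atTop (𝓝 L)) :
    limsup (fun H : ℕ => (H : ℝ≥0∞)⁻¹ * ∑ h ∈ Finset.range H, ENNReal.ofReal (a h)) atTop = ENNReal.ofReal L := by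
  apply Tendsto.limsup_eq
  refine (ENNReal.tendsto_ofReal ht).congr' ?_
  filter_upwards [eventually_gt_atTop 0] with H hH
  have hHR : (0 : ℝ) < H := by exact_mod_cast hH
  rw [ENNReal.ofReal_mul (by positivity), ENNReal.ofReal_inv_of_pos hHR, ENNReal.ofReal_natCast,
    ENNReal.ofReal_sum_of_nonneg fun i _ => h0 i]

section

variable {X : Type} [MeasurableSpace X] [StandardBorelSpace X] {μ : Measure X} [IsProbabilityMeasure μ]
  {Φ : ℤ → Equiv.Perm X}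

theorem box_zero_eq (h : Act μ Φ) {f : X → ℝ} (hf : BMr f) :
    box μ (Φ 1) 1 0 (fun x => ((f x : ℝ) : ℂ)) = ENNReal.ofReal (∫ x, (μ[f | inv Φ 1]) x ^ 2 ∂μ) := by
  unfold box
  apply Tendsto.limsup_eq
  refine (ENNReal.tendsto_ofReal (h.mean_sq 1 hf)).congr fun N => ?_
  obtain ⟨hfm, C, hC⟩ := hf
  have hC' : ∀ x, |f x| ≤ |C| := fun x => (hC x).trans (le_abs_self _)
  have hm : Measurable fun x => (N : ℝ)⁻¹ * ∑ s ∈ Finset.range N, f (Φ (s • (1 : ℤ)) x) :=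
    (Finset.measurable_fun_sum _ fun s _ => hfm.comp (h.measurable _)).const_mul _
  have hb : ∀ x, |(N : ℝ)⁻¹ * ∑ s ∈ Finset.range N, f (Φ (s • (1 : ℤ)) x)| ≤ |C| := fun x =>
    abs_avg_le (f := fun s : ℕ => f (Φ (s • (1 : ℤ)) x)) (abs_nonneg _) (fun s => hC' _) N
  have hi : Integrable (fun x => ((N : ℝ)⁻¹ * ∑ s ∈ Finset.range N, f (Φ (s • (1 : ℤ)) x)) ^ 2) μ := by
    refine Integrable.of_bound (hm.pow_const 2).aestronglyMeasurable (|C| ^ 2) (Eventually.of_forall fun x => ?_)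
    rw [norm_pow, Real.norm_eq_abs]
    exact pow_le_pow_left₀ (abs_nonneg _) (hb x) 2
  rw [ofReal_integral_eq_lintegral_ofReal hi (Eventually.of_forall fun x => sq_nonneg _)]
  refine lintegral_congr fun x => ?_
  have e1 : (N : ℂ)⁻¹ * ∑ n ∈ Finset.range N, ((f ((Φ 1)^[1 * n] x) : ℝ) : ℂ) =
      (((N : ℝ)⁻¹ * ∑ s ∈ Finset.range N, f (Φ (s • (1 : ℤ)) x) : ℝ) : ℂ) := by
    push_cast
    simp only [one_mul, h.iterate]
  rw [e1, ← ofReal_norm_eq_enorm, Complex.norm_real, Real.norm_eq_abs, ← ENNReal.ofReal_pow (abs_nonneg _), sq_abs]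

theorem conj_mul_real (h : Act μ Φ) (g : X → ℝ) (s : ℕ) :
    (fun x => ((g ((Φ 1)^[s] x) : ℝ) : ℂ) * conj ((g x : ℝ) : ℂ)) =
      fun x => ((g (Φ (s : ℤ) x) * g x : ℝ) : ℂ) := by
  funext x
  rw [h.iterate, Complex.conj_ofReal]
  push_cast
  simp

theorem box_one_eq (hL : LEMS) (h : Act μ Φ) {g : X → ℝ} (hg : BMr g) :
    box μ (Φ 1) 1 1 (fun x => ((g x : ℝ) : ℂ)) = ENNReal.ofReal (En μ Φ g) := by
  have h1 := limsup_ofReal (fun n => integral_nonneg fun x => sq_nonneg _) (hL X μ Φ h g hg)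
  rw [← h1]
  show limsup (fun H : ℕ => (H : ℝ≥0∞)⁻¹ * ∑ s ∈ Finset.range H,
      box μ (Φ 1) 1 0 (fun x => ((g ((Φ 1)^[s] x) : ℝ) : ℂ) * conj ((g x : ℝ) : ℂ))) atTop = _
  congr 1
  funext H
  congr 1
  refine Finset.sum_congr rfl fun s _ => ?_
  rw [conj_mul_real h g s]
  exact box_zero_eq h ((hg.comp (h.measurable _)).mul hg)

end

theorem HK2.t (hL : LEMS) : HK2 := by
  intro X _ _ μ _ Φ h w hw hE
  have hW : BMr (fun z : X × X => w z.1 * w z.2) := (hw.comp measurable_fst).mul (hw.comp measurable_snd)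
  have h2 : Act (S2 μ Φ) (D2 Φ) := h.rel (w := 1) 0
  have h1 := limsup_ofReal (fun n => integral_nonneg fun x => sq_nonneg _) (hL (X × X) (S2 μ Φ) (D2 Φ) h2 _ hW)
  rw [hE, ENNReal.ofReal_zero] at h1
  rw [← h1]
  show limsup (fun H : ℕ => (H : ℝ≥0∞)⁻¹ * ∑ s ∈ Finset.range H,
      box μ (Φ 1) 1 1 (fun x => ((w ((Φ 1)^[s] x) : ℝ) : ℂ) * conj ((w x : ℝ) : ℂ))) atTop = _
  congr 1
  funext H
  congr 1
  refine Finset.sum_congr rfl fun s _ => ?_
  rw [conj_mul_real h w s, box_one_eq hL h ((hw.comp (h.measurable _)).mul hw)]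
  congr 1
  unfold En
  have e1 : (fun z : X × X => (w (Φ (s : ℤ) z.1) * w z.1) * (w (Φ (s : ℤ) z.2) * w z.2)) =
      fun z : X × X => (w (D2 Φ (s : ℤ) z).1 * w (D2 Φ (s : ℤ) z).2) * (w z.1 * w z.2) := by
    funext z
    rw [D2_apply]
    ring
  rw [e1]

end Pool.Agent.H80IE
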