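import Pool.Agent.Y311.CX.Ker
import Pool.Agent.H80GE.HKAbs
import Pool.Agent.H80GE.WM4

/-!
Project IE: definitions and statements.

Library used (all on main): `Pool.Agent.Y311.UB` (`Act μ Φ`: measure preserving action, `BMr f`: bounded measurable
real function, `inv Φ w`: σ-algebra of the `Φ w`-invariant sets, `relK μ Φ w`: conditional measures over it, `relSq μ Φ w`:
the relatively independent square `μ ⊗ₘ relK μ Φ w`, `relΦ Φ w l`: action on it, `int_relSq`, `Act.rel`, `Act.birkhoff`,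
`Act.mean_sq`, `Act.condExp_comp`, `Act.inv_zsmul` in `Y311/UB/Rel.lean`), `Pool.Agent.Y311.CX` (`BAP`: Besicovitch almost
periodic sequences, `TP`: trigonometric polynomials, `Ch ℤ`: characters, `UD`, `BAP.add/mul/smul/const/closed/of_TP` in
`CX/Seq.lean`; `APf μ Φ w s`: `s` is bounded measurable and for a.e. `x` the sequence `n ↦ s (Φ (n • w) x)` is `BAP`,
`APf.add/mul/smul/const/closed`, `ae_exists_lt`, `exists_proj` in `CX/Zfac.lean`; `relSq_snd`, `relK_mp`, `relK_orbit`,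
`Kf`, `Kf_BMr`, `int_Kf`, `energy_zero` in `CX/Ker.lean`), `Pool.Agent.H80GE` (`av N u`: average of the first `N` terms,
`AV T a f N x = av N (n ↦ ∏ j, f j (T^[a j * (n + 1)] x))`, `vdc_cor`, `sum_dist_le` in `Vdc.lean`, `box` in `Box.lean`,
`close`, `conv_of_approx` in `Transfer.lean`, `slot`, `AV_slot_add` in `WM4.lean`, `erg_real` in `WM1.lean`).
-/

set_option autoImplicit false

open Filter Topology MeasureTheory ProbabilityTheory
open scoped ENNReal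

noncomputable section

namespace Pool.Agent.H80IE

open Pool.Agent.Y311.UB Pool.Agent.Y311.CX Pool.Agent.H80GE

/-- the diagonal action `n ↦ Φ n × Φ n` on `X × X` -/
abbrev D2 {X : Type} (Φ : ℤ → Equiv.Perm X) : ℤ → Equiv.Perm (X × X) := relΦ Φ (1 : ℤ) (0 : ℤ →+ ℤ)

theorem D2_apply {X : Type} (Φ : ℤ → Equiv.Perm X) (n : ℤ) (z : X × X) : D2 Φ n z = (Φ n z.1, Φ n z.2) := by
  change (Φ n z.1, Φ (n - (0 : ℤ →+ ℤ) n • (1 : ℤ)) z.2) = _
  simp

/-- the relatively independent square over the invariant sets of `Φ 1` -/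
abbrev S2 {X : Type} [MeasurableSpace X] [StandardBorelSpace X] (μ : Measure X) [IsProbabilityMeasure μ]
    (Φ : ℤ → Equiv.Perm X) : Measure (X × X) := relSq μ Φ (1 : ℤ)

/-- the energy `∫ (E[G ⊗ G | invariant sets])²` on the relatively independent square; for `ν = μ`, `Ψ = Φ` it is the
fourth power of the second Host–Kra seminorm of `G` -/
def En {V : Type} [MeasurableSpace V] [StandardBorelSpace V] (ν : Measure V) [IsProbabilityMeasure ν]
    (Ψ : ℤ → Equiv.Perm V) (G : V → ℝ) : ℝ :=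
  ∫ z, ((S2 ν Ψ)[fun z : V × V => G z.1 * G z.2 | inv (D2 Ψ) 1]) z ^ 2 ∂(S2 ν Ψ)

/-- finite sums of the functions `z ↦ k z * g z.2` with `k` almost periodic -/
inductive QS {X : Type} [MeasurableSpace X] (ν : Measure (X × X)) (Ψ : ℤ → Equiv.Perm (X × X)) :
    (X × X → ℝ) → Prop
  | base (k : X × X → ℝ) (g : X → ℝ) : APf ν Ψ 1 k → BMr g → QS ν Ψ (fun z => k z * g z.2)
  | add (u v : X × X → ℝ) : QS ν Ψ u → QS ν Ψ v → QS ν Ψ (fun z => u z + v z)

/-- the bounded functions in the closure of `QS` in the mean -/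
def LA {X : Type} [MeasurableSpace X] (ν : Measure (X × X)) (Ψ : ℤ → Equiv.Perm (X × X)) (u : X × X → ℝ) : Prop :=
  BMr u ∧ ∀ ε : ℝ, 0 < ε → ∃ v, QS ν Ψ v ∧ ∫ z, |u z - v z| ∂ν ≤ ε

/-- the functions `s` with `z ↦ s z.1` in `LA` on the relatively independent square -/
def ZA {X : Type} [MeasurableSpace X] [StandardBorelSpace X] (μ : Measure X) [IsProbabilityMeasure μ]
    (Φ : ℤ → Equiv.Perm X) (s : X → ℝ) : Prop := BMr s ∧ LA (S2 μ Φ) (D2 Φ) (fun z => s z.1)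

/-- the functions `s` with `z ↦ s z.1` in `LA` on the product -/
def ZP {X : Type} [MeasurableSpace X] (η : Measure X) (Φ : ℤ → Equiv.Perm X) (s : X → ℝ) : Prop :=
  BMr s ∧ LA (η.prod η) (D2 Φ) (fun z => s z.1)

/-- algebras of bounded functions closed in the mean -/
structure CAlg {V : Type} [MeasurableSpace V] (ν : Measure V) (A : (V → ℝ) → Prop) : Prop where
  bmr : ∀ f, A f → BMr f
  add : ∀ f g, A f → A g → A (fun x => f x + g x)
  mul : ∀ f g, A f → A g → A (fun x => f x * g x)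
  smul : ∀ (c : ℝ) f, A f → A (fun x => c * f x)
  const : ∀ c : ℝ, A (fun _ => c)
  closed : ∀ f, BMr f → (∀ ε : ℝ, 0 < ε → ∃ s, A s ∧ ∫ x, |f x - s x| ∂ν ≤ ε) → A f

/-- COR. Correlations: `(1/M) ∑_{m<M} ∫ W(Ψ^m z) W(z) dν → ∫ E[W|inv]² dν`. Proof: `Act.birkhoff` with `w = 1` (rewrite
`s • (1 : ℤ) = s`) gives `(1/M) ∑ W(Ψ^m z) → E[W|inv](z)` a.e.; multiply by the bounded function `W` and use
`tendsto_integral_of_dominated_convergence`, exchange integral and finite sum; finally `∫ E[W|inv] · W = ∫ E[W|inv]²`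
(`condExp_mul_of_stronglyMeasurable_right` and `integral_condExp` as in the proof of `int_relSq` (h4–h7), or directly
`condExp_version`). -/
def COR : Prop := ∀ (V : Type) [MeasurableSpace V] [StandardBorelSpace V] (ν : Measure V) [IsProbabilityMeasure ν]
  (Ψ : ℤ → Equiv.Perm V), Act ν Ψ → ∀ W : V → ℝ, BMr W →
  Tendsto (fun M : ℕ => (M : ℝ)⁻¹ * ∑ m ∈ Finset.range M, ∫ z, W (Ψ (m : ℤ) z) * W z ∂ν) atTop
    (𝓝 (∫ z, (ν[W | inv Ψ 1]) z ^ 2 ∂ν))

/-- LEMS. Proof (from COR): `int_relSq` with `f = g = (z ↦ G (Ψ m z) * G z)` says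
`∫ (ν[G∘Ψ^m · G | inv])² dν = ∫ G(Ψ^m z.1) G(z.1) G(Ψ^m z.2) G(z.2) d(S2 ν Ψ)`, which is the correlation
`∫ W(D2 Ψ m z) W(z)` of `W z = G z.1 * G z.2` (`D2_apply`) for the action `h.rel 0 : Act (S2 ν Ψ) (D2 Ψ)`
(`Act.rel` with `l = 0`, `w = 1`). Apply COR to it. -/
def LEMS : Prop := ∀ (V : Type) [MeasurableSpace V] [StandardBorelSpace V] (ν : Measure V) [IsProbabilityMeasure ν]
  (Ψ : ℤ → Equiv.Perm V), Act ν Ψ → ∀ G : V → ℝ, BMr G →
  Tendsto (fun M : ℕ => (M : ℝ)⁻¹ * ∑ m ∈ Finset.range M, ∫ z, (ν[fun z => G (Ψ (m : ℤ) z) * G z | inv Ψ 1]) z ^ 2 ∂ν)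
    atTop (𝓝 (En ν Ψ G))

/-- HK2. If the energy of `w ⊗ w` on the relatively independent square vanishes, the third Host–Kra seminorm of `w`
vanishes. Proof (from LEMS): `box μ T 1 0 f = limsup ∫⁻ ‖N⁻¹ ∑_{n<N} f(T^[1*n] x)‖ₑ²` and for a real bounded `f` (cast to `ℂ`)
this is `ENNReal.ofReal (∫ (μ[f|inv])²)` by `Act.mean_sq` (`Φ (s • 1) = (Φ 1)^[s]`, `Act.iterate`). Hence (the conjugate is
harmless, the functions are real) `box μ T 1 1 g = limsup_H H⁻¹ ∑_{h<H} ofReal (∫ (μ[g∘T^h · g|inv])²) = ofReal (En μ Φ g)` by LEMS.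
For `g = w∘T^h · w` and `W z = w z.1 * w z.2` one has `g z.1 * g z.2 = W (D2 Φ h z) * W z`, so
`En μ Φ g = ∫ ((S2 μ Φ)[W∘D2^h · W | inv (D2 Φ) 1])²`, and LEMS for `V = X × X`, `ν = S2 μ Φ`, `Ψ = D2 Φ`, `G = W` gives
`box μ T 1 2 w = limsup_H H⁻¹ ∑_{h<H} ofReal (…) = ofReal (En (S2 μ Φ) (D2 Φ) W) = 0`. -/
def HK2 : Prop := ∀ (X : Type) [MeasurableSpace X] [StandardBorelSpace X] (μ : Measure X) [IsProbabilityMeasure μ]
  (Φ : ℤ → Equiv.Perm X), Act μ Φ → ∀ w : X → ℝ, BMr w →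
  En (S2 μ Φ) (D2 Φ) (fun z => w z.1 * w z.2) = 0 →
  box μ (Φ 1) 1 2 (fun x => ((w x : ℝ) : ℂ)) = 0

/-- GPROJ. The projection to a closed algebra. Proof: copy `Zs`, `APf_of_measurable`, `APf.comp_cont`, `APf.measurable`,
`exists_proj` of `Y311/CX/Zfac.lean`, with `A` in place of `APf μ Φ w` (only `add`, `mul`, `smul`, `const` and the closure
property are used there; `closed_unif` and `closed_lim` follow from `closed`). -/
def GPROJ : Prop := ∀ (V : Type) [MeasurableSpace V] (ν : Measure V) [IsProbabilityMeasure ν] (A : (V → ℝ) → Prop),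
  CAlg ν A → ∀ f : V → ℝ, Measurable f → (∀ x, |f x| ≤ 1) →
  ∃ fs : V → ℝ, A fs ∧ (∀ x, |fs x| ≤ 1) ∧ ∀ s, A s → ∫ x, (f x - fs x) * s x ∂ν = 0

/-- LAALG. `LA` is a closed algebra. Proof: `QS` functions are `BMr`; products of two `QS` functions are `QS` (induction twice;
`(k g)(k' g') = (k k')(g g')`, `APf.mul`, `BMr.mul`), constant multiples, constants (`APf.const`, `BMr.one`). For products in `LA`:
`|u u' - v v'| ≤ |u - v| C' + C_v |u' - v'|` where `C'` bounds `u'` and `C_v` bounds `v`; choose `v` first, then `v'`. `closed`: triangle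
inequality. -/
def LAALG : Prop := ∀ (X : Type) [MeasurableSpace X] (ν : Measure (X × X)) [IsProbabilityMeasure ν]
  (Ψ : ℤ → Equiv.Perm (X × X)), CAlg ν (LA ν Ψ)

/-- RCO. The conditional measures are constant on almost every fibre. Proof: for a measurable `B` the function
`x ↦ (relK μ Φ 1 x B).toReal` is `inv Φ 1`-measurable and bounded, so by the argument of `Pool.Agent.R291.QD.erg_const`
(`R291/QDErg2.lean`; there `erg G μ` is in place of `relK μ Φ 1`) it is `relK μ Φ 1 x`-a.e. equal to its value at `x`, for `μ`-a.e. `x`. Use this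
for a countable π-system generating the σ-algebra (`exists_countable_piSystem` in `R291/QDErg4.lean`) and `ext_of_generate_finite`. -/
def RCO : Prop := ∀ (X : Type) [MeasurableSpace X] [StandardBorelSpace X] (μ : Measure X) [IsProbabilityMeasure μ]
  (Φ : ℤ → Equiv.Perm X), Act μ Φ → ∀ᵐ x ∂μ, ∀ᵐ y ∂(relK μ Φ 1 x), relK μ Φ 1 y = relK μ Φ 1 x

/-- FERG. Ergodic decomposition: almost every conditional measure is ergodic. Proof: as `erg_ergodic` in `R291/QDErg4.lean`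
(or deduce it from there, with the action of `Multiplicative ℤ` by `Φ`, whose invariant σ-algebra `invSigma` equals `inv Φ 1`:
`Act.inv_zsmul`); another proof: for a.e. `x0` and all `B` of a countable π-system (closed under finite intersections, generating),
the averages of `1_B` along the orbit of `relK x0`-a.e. `x` converge to `relK x B = relK x0 B` (`Act.birkhoff`, RCO), so for an invariant `A`,
`relK x0 (A ∩ B) = relK x0 A * relK x0 B` by dominated convergence, as in `erg_ergodic`. Invariance of `relK μ Φ 1 x` is `relK_mp`. -/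
def FERG : Prop := ∀ (X : Type) [MeasurableSpace X] [StandardBorelSpace X] (μ : Measure X) [IsProbabilityMeasure μ]
  (Φ : ℤ → Equiv.Perm X), Act μ Φ → ∀ᵐ x ∂μ, Ergodic (Φ 1) (relK μ Φ 1 x)

/-- DIS. The relatively independent square is the integral of the squares of the conditional measures. Proof (from RCO):
`∫⁻ F d(S2 μ Φ) = ∫⁻ x, φ x ∂μ` with `φ x = ∫⁻ y, F (x, y) ∂(relK x)` (`Measure.lintegral_compProd`);
`∫⁻ φ dμ = ∫⁻ x0, ∫⁻ x, φ x ∂(relK x0) ∂μ` (`relK ∘ₘ μ = μ`, see `erg_comp`, `erg_lintegral` in `R291/QDErg2.lean`), and for a.e. `x0`,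
for `relK x0`-a.e. `x` (RCO) `φ x = ∫⁻ y, F (x, y) ∂(relK x0)`; `lintegral_prod`. -/
def DIS : Prop := ∀ (X : Type) [MeasurableSpace X] [StandardBorelSpace X] (μ : Measure X) [IsProbabilityMeasure μ]
  (Φ : ℤ → Equiv.Perm X), Act μ Φ → ∀ F : X × X → ℝ≥0∞, Measurable F →
  ∫⁻ z, F z ∂(S2 μ Φ) = ∫⁻ x, ∫⁻ z, F z ∂((relK μ Φ 1 x).prod (relK μ Φ 1 x)) ∂μ

/-- FIB. Passage to the fibres. Proof (from DIS): choose `v i ∈ QS (S2 μ Φ) (D2 Φ)` with `∫ |s z.1 - v i z| d(S2 μ Φ) ≤ 1/(i+1)`. By DIS (and Markov: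
`ae_exists_lt` in `Zfac.lean`) for a.e. `x`: for all `ε > 0` some `i` with `∫ |s z.1 - v i z| d(relK x × relK x) < ε`. By DIS every `S2`-null set
(contained in a measurable one) is `relK x × relK x`-null for a.e. `x`, so an `APf (S2 μ Φ) (D2 Φ) 1` function is
`APf (relK x × relK x) (D2 Φ) 1` for a.e. `x`, and (induction over `QS`) `v i ∈ QS (relK x × relK x) (D2 Φ)` for a.e. `x`, all `i`. -/
def FIB : Prop := ∀ (X : Type) [MeasurableSpace X] [StandardBorelSpace X] (μ : Measure X) [IsProbabilityMeasure μ]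
  (Φ : ℤ → Equiv.Perm X), Act μ Φ → ∀ s : X → ℝ, ZA μ Φ s → ∀ᵐ x ∂μ, ZP (relK μ Φ 1 x) Φ s

/-- FAV. Averaging in the second coordinate. Proof (from FERG): for a.e. `x` the map `Φ 1` is ergodic for `relK x`, and `erg_real`
(`H80GE/WM1.lean`) for the function `y ↦ u (x, y)` gives for `relK x`-a.e. `y` that `H⁻¹ ∑_{h<H} u (x, (Φ 1)^[h] y) → ∫ u (x, y') d(relK x)(y')`
(`Act.iterate`: `(Φ 1)^[h] = Φ h`). By `Measure.ae_compProd_iff` or `ae_compProd_of_ae_ae` (the set is measurable: `measurableSet_tendsto_fun`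
or via `Measurable` of the limsup; `S2 μ Φ = μ ⊗ₘ relK μ Φ 1`) the convergence holds `S2`-a.e.; dominated convergence (the function
`x ↦ ∫ u (x, y) d(relK x)` is measurable as in `Kf_BMr`: it is `Kf μ Φ 1 u 1`). -/
def FAV : Prop := ∀ (X : Type) [MeasurableSpace X] [StandardBorelSpace X] (μ : Measure X) [IsProbabilityMeasure μ]
  (Φ : ℤ → Equiv.Perm X), Act μ Φ → ∀ u : X × X → ℝ, BMr u →
  Tendsto (fun H : ℕ => ∫ z, |(H : ℝ)⁻¹ * ∑ h ∈ Finset.range H, u (z.1, Φ (h : ℤ) z.2) - ∫ y, u (z.1, y) ∂(relK μ Φ 1 z.1)|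
    ∂(S2 μ Φ)) atTop (𝓝 0)

/-- ZK. The kernel operators map into `ZA`. Proof (from FAV): `Kf μ Φ 1 k w x = ∫ k (x, y) w y d(relK x)(y)` is `BMr` (`Kf_BMr`). For
`u z = k z * w z.2` FAV says `H⁻¹ ∑_{h<H} k (z.1, Φ h z.2) * w (Φ h z.2) → Kf μ Φ 1 k w z.1` in `L¹(S2 μ Φ)`. Every term is
`k_h z * g_h z.2` with `g_h = w ∘ Φ h` and `k_h z = k (z.1, Φ h z.2)`, and `k_h` is `APf (S2 μ Φ) (D2 Φ) 1`: by
`relSq_snd h 1 h` the map `Prod.map id (Φ (h • 1))` preserves `S2 μ Φ`, it commutes with `D2 Φ n`, so for a.e. `z` the sequence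
`n ↦ k_h (D2 Φ n z) = k (D2 Φ n (z.1, Φ h z.2))` is `BAP`. So the averages are in `QS` (for `H ≥ 1`; put the factor `H⁻¹` in `k_h`). -/
def ZK : Prop := ∀ (X : Type) [MeasurableSpace X] [StandardBorelSpace X] (μ : Measure X) [IsProbabilityMeasure μ]
  (Φ : ℤ → Equiv.Perm X), Act μ Φ → ∀ k : X × X → ℝ, APf (S2 μ Φ) (D2 Φ) 1 k → ∀ w : X → ℝ, BMr w →
  ZA μ Φ (Kf μ Φ 1 k w)

/-- EOR. Proof (from ZK): `energy_zero` (`CX/Ker.lean`) for the action `h.rel 0 : Act (S2 μ Φ) (D2 Φ)`, `w = 1`, and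
`u z = w z.1 * w z.2`: for `k` with `APf (S2 μ Φ) (D2 Φ) 1 k`, `∫ u z * k z = ∫ w z.1 * (k z * w z.2) = ∫ w x * Kf μ Φ 1 k w x dμ = 0`
by `int_Kf` and ZK. -/
def EOR : Prop := ∀ (X : Type) [MeasurableSpace X] [StandardBorelSpace X] (μ : Measure X) [IsProbabilityMeasure μ]
  (Φ : ℤ → Equiv.Perm X), Act μ Φ → ∀ w : X → ℝ, BMr w → (∀ s, ZA μ Φ s → ∫ x, w x * s x ∂μ = 0) →
  En (S2 μ Φ) (D2 Φ) (fun z => w z.1 * w z.2) = 0

/-- WWZ. Energy zero implies that all twisted averages tend to zero at almost every point. Proof (from LEMS). Let `c d = λ[v ↦ w (R d v) w v | inv R 1]`.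
By `Act.birkhoff`, for a.e. `v` and all `d : ℕ`, `N⁻¹ ∑_{n<N} w (R (n+d) v) w (R n v) → c d v`. Apply `vdc_cor` (`H80GE/Vdc.lean`) with
`Ω = Unit`, `P = dirac ()`, `u n = χ n * w (R n v)` and `c d n = u (n+d) * conj (u n) = χ d * w (R (n+d) v) w (R n v)` (`χ (n+d) = χ n χ d`,
`‖χ n‖ = 1`): `‖av N u‖² ≤ H⁻² ∑_{h,h'<H} Re (av N (c (dist h h'))) + 6 D² H / N`, and letting `N → ∞`, by `sum_dist_le`:
`limsup ‖av N u‖² ≤ H⁻² ∑_{h,h'} |c (dist h h') v| ≤ 2 H⁻¹ ∑_{d<H} |c d v| =: 2 g_H(v)`. By Cauchy–Schwarz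
`(∫ g_H dλ)² ≤ H⁻¹ ∑_{d<H} ∫ (c d)² dλ → En λ R w = 0` (LEMS; `sq_int_le`, `inner_mul_le_norm_mul_norm` or `(∑ x)² ≤ H ∑ x²`), so by `ae_exists_lt`
(`CX/Zfac.lean`) for a.e. `v`, for every `ε > 0` there is `H` with `g_H(v) < ε`. -/
def WWZ : Prop := ∀ (V : Type) [MeasurableSpace V] [StandardBorelSpace V] (lam : Measure V) [IsProbabilityMeasure lam]
  (R : ℤ → Equiv.Perm V), Act lam R → ∀ w : V → ℝ, BMr w → En lam R w = 0 →
  ∀ᵐ v ∂lam, ∀ χ ∈ Ch ℤ, Tendsto (fun N : ℕ => av N (fun n => χ n * ((w (R n v) : ℝ) : ℂ))) atTop (𝓝 0)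

/-- BAPA. Averages of Besicovitch almost periodic sequences converge. Proof: for a character `χ` one has `χ n = (χ 1)^n` and the averages
converge (`av_pow_tendsto` in `WM4.lean` is the shifted version, or `avg_pow` in `CX/Unit.lean`), hence for `TP ℤ` (`Submodule.span_induction`). For
`b` with `UD (‖b - p‖) ε`: `‖av N b - av N p‖ ≤ N⁻¹ ∑_{0≤n<N} ‖b n - p n‖ ≤ N⁻¹ sd N (‖b - p‖) ≤ ε (2N+1)/N ≤ 3 ε` eventually, so the averages are Cauchy. -/
def BAPA : Prop := ∀ b : ℤ → ℂ, BAP b → ∃ L, Tendsto (fun N : ℕ => av N (fun n => b n)) atTop (𝓝 L)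

/-- BAPZ. Proof: by linearity for `p ∈ TP ℤ` (span induction); then approximate `b` by `p` as in BAPA, `‖g‖ ≤ C`. -/
def BAPZ : Prop := ∀ (b : ℤ → ℂ) (g : ℕ → ℂ) (C : ℝ), BAP b → (∀ n, ‖g n‖ ≤ C) →
  (∀ χ ∈ Ch ℤ, Tendsto (fun N : ℕ => av N (fun n => χ n * g n)) atTop (𝓝 0)) →
  Tendsto (fun N : ℕ => av N (fun n => b n * g n)) atTop (𝓝 0)

/-- BAPL. Proof: `p ∈ TP ℤ` gives `n ↦ p (a n + a) ∈ TP ℤ` (span induction: `χ (a n + a) = χ a * χ (a n)`); and
`∑_{|n| ≤ N} ‖b (a n + a) - p (a n + a)‖ ≤ ∑_{|m| ≤ a N + a} ‖b m - p m‖ ≤ ε (2 (a N + a) + 1) ≤ 3 a ε (2 N + 1)` (`n ↦ a n + a` is injective as `a ≠ 0`). -/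
def BAPL : Prop := ∀ (b : ℤ → ℂ) (a : ℕ), 0 < a → BAP b → BAP (fun n => b (a * n + a))

/-- WW. Wiener–Wintner theorem with Besicovitch almost periodic weights. Proof (from WWZ, BAPA, BAPZ; `exists_proj`, `energy_zero`): by scaling `|G| ≤ 1`.
`exists_proj h 1` gives `s` with `APf lam R 1 s`, `|s| ≤ 1` and `w = G - s` orthogonal to all `APf lam R 1`; `energy_zero` gives `En lam R w = 0`. For a.e. `v`:
`n ↦ s (R n v)` is `BAP` and bounded, so `b n * s (R n v)` is `BAP` (`BAP.mul`) and its averages converge (BAPA); WWZ and BAPZ give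
`av N (b n * w (R n v)) → 0`. Sum up. -/
def WW : Prop := ∀ (V : Type) [MeasurableSpace V] [StandardBorelSpace V] (lam : Measure V) [IsProbabilityMeasure lam]
  (R : ℤ → Equiv.Perm V), Act lam R → ∀ G : V → ℝ, BMr G →
  ∀ᵐ v ∂lam, ∀ b : ℤ → ℂ, BAP b →
    ∃ L, Tendsto (fun N : ℕ => av N (fun n => b n * ((G (R n v) : ℝ) : ℂ))) atTop (𝓝 L)

/-- the diagonal map on `X × X^m` -/
def RR {X : Type} {m : ℕ} (Φ : ℤ → Equiv.Perm X) (p : X × (Fin m → X)) : X × (Fin m → X) :=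
  (Φ 1 p.1, fun j => Φ 1 (p.2 j))

/-- the function of `(x, ω)` given by `F` at `(x, ω j)` -/
def FF {X : Type} {m : ℕ} (F : Fin m → X × X → ℝ) (j : Fin m) (p : X × (Fin m → X)) : ℂ :=
  ((F j (p.1, p.2 j) : ℝ) : ℂ)

/-- PRD. Proof (from WW, BAPL): the map `(x, ω) ↦ (x, ω j)` sends `η × η^m` to `η × η`, so for a.e. `(x, ω)` and all `j` the sequence
`n ↦ k j (D2 Φ n (x, ω j)) = k j (Φ n x, Φ n (ω j))` is `BAP`, so `b n = ∏ j, k j (Φ (a j n + a j) x, Φ (a j n + a j) (ω j))` is `BAP` (BAPL,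
`BAP.mul`, induction over a Finset). Apply WW to `V = Fin m → X`, `lam = Measure.pi fun _ => η`, `R n ω = fun j => Φ (n * a j) (ω j)` (an action,
measure preserving by `measurePreserving_pi`) and `G ω = ∏ j, g j (Φ (a j) (ω j))`, so `G (R n ω) = ∏ j, g j (Φ (a j (n+1)) (ω j))`; transfer
the a.e. statement from `ω` to `(x, ω)` (`Measure.quasiMeasurePreserving_snd.ae`). `(Φ 1)^[a j * (n+1)] = Φ (a j (n+1))` by `Act.iterate`, and
`RR` iterates coordinatewise. -/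
def PRD : Prop := ∀ (X : Type) [MeasurableSpace X] [StandardBorelSpace X] (η : Measure X) [IsProbabilityMeasure η]
  (Φ : ℤ → Equiv.Perm X), Act η Φ → ∀ (m : ℕ) (a : Fin m → ℕ), (∀ j, 0 < a j) →
  ∀ (k : Fin m → X × X → ℝ) (g : Fin m → X → ℝ), (∀ j, APf (η.prod η) (D2 Φ) 1 (k j)) → (∀ j, BMr (g j)) →
  ∀ᵐ p ∂(η.prod (Measure.pi fun _ : Fin m => η)),
    ∃ L, Tendsto (fun N => AV (RR Φ) a (FF fun j z => k j z * g j z.2) N p) atTop (𝓝 L)

/-- SPN. Proof (from PRD): induction slot by slot: for every `J : Finset (Fin m)`, if `F j ∈ QS` for `j ∈ J` and `F j = k j * g j ∘ snd` for `j ∉ J`,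
the averages converge a.e. (for `j0 ∈ J` induction on `QS`: `AV` is additive in the slot `j0`, `AV_slot_add` in `WM4.lean`). Then the closure:
for `F j ∈ LA` bounded by `C`, given `δ, ε` take `v j ∈ QS` with `∫ |F j - v j| d(η × η)` small; the functions `v j` are not bounded by a uniform constant, so
do it one slot after the other as well: for every `J`, if `F j ∈ LA` for `j ∈ J` and `F j ∈ QS` for `j ∉ J` we have convergence. Step: the functions
`F j`, `j ≠ j0`, are fixed and bounded by some `C ≥ 1`, and `F j0 ∈ LA` is approximated by `v ∈ QS`: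
`|AV (slot F j0) - AV (slot v j0)| ≤ C^m * N⁻¹ ∑_{n<N} |F j0 - v| (RR^[a j0 (n+1)] p)` and `avg_small` (`Transfer.lean`) bounds the measure of the points
where this is not eventually `≤ δ`, by a constant times `∫ |F j0 - v| / δ`, where `RR Φ` preserves `η × η^m` and
`(x, ω) ↦ (x, ω j0)` sends this measure to `η × η`. Then `conv_of_approx` (`Transfer.lean`). -/
def SPN : Prop := ∀ (X : Type) [MeasurableSpace X] [StandardBorelSpace X] (η : Measure X) [IsProbabilityMeasure η]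
  (Φ : ℤ → Equiv.Perm X), Act η Φ → ∀ (m : ℕ) (a : Fin m → ℕ), (∀ j, 0 < a j) →
  ∀ F : Fin m → X × X → ℝ, (∀ j, LA (η.prod η) (D2 Φ) (F j)) →
  ∀ᵐ p ∂(η.prod (Measure.pi fun _ : Fin m => η)),
    ∃ L, Tendsto (fun N => AV (RR Φ) a (FF F) N p) atTop (𝓝 L)

/-- ZAC. Proof (from SPN, FIB): for `ZP η Φ (s j)` SPN with `F j z = s j z.1` gives convergence of
`AV (RR Φ) a (FF F) N (x, ω) = AV (Φ 1) a (fun j x => s j x) N x` for a.e. `(x, ω)`, so for `η`-a.e. `x`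
(`Measure.ae_ae_of_ae_prod` and `Measure.pi` is a probability measure, so nonzero: `Eventually.exists`). For a.e. `x0` this holds for
`η = relK μ Φ 1 x0` (FIB; `Act (relK μ Φ 1 x0) Φ` for a.e. `x0` by `relK_mp`), and `μ = ∫ relK μ Φ 1 x0 dμ` (`erg_comp` in `R291/QDErg2.lean`, `Measure.bind`); the set of
convergence is measurable (`measurableSet_exists_tendsto`). -/
def ZAC : Prop := ∀ (X : Type) [MeasurableSpace X] [StandardBorelSpace X] (μ : Measure X) [IsProbabilityMeasure μ]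
  (Φ : ℤ → Equiv.Perm X), Act μ Φ → ∀ (m : ℕ) (a : Fin m → ℕ), (∀ j, 0 < a j) →
  ∀ s : Fin m → X → ℝ, (∀ j, ZA μ Φ (s j)) →
  ∀ᵐ x ∂μ, ∃ L, Tendsto (fun N => AV (Φ 1) a (fun j x => ((s j x : ℝ) : ℂ)) N x) atTop (𝓝 L)

end Pool.Agent.H80IE
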