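import Pool.Agent.H80IE.Tower
import Pool.Agent.H80IE.Fin2

/-!
Isometric steps and inverse limits for σ-algebras.
-/

set_option autoImplicit false

open Filter Topology MeasureTheory ProbabilityTheory
open scoped ENNReal ProbabilityTheory ComplexConjugate

namespace Pool.Agent.H80IE

open Pool.Agent.Y311.UB Pool.Agent.Y311.CX Pool.Agent.H80GE

section

variable {X : Type} (𝓑 𝓐 : MeasurableSpace X) [mX : MeasurableSpace X] {μ : Measure X} [IsProbabilityMeasure μ]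

omit [IsProbabilityMeasure μ] in
theorem ind_sub_zero {s t : Set X} (h : s =ᵐ[μ] t) :
    ∫ x, |s.indicator (fun _ => (1 : ℝ)) x - t.indicator (fun _ => (1 : ℝ)) x| ∂μ = 0 := by
  have h1 : (fun x => |s.indicator (fun _ => (1 : ℝ)) x - t.indicator (fun _ => (1 : ℝ)) x|) =ᵐ[μ] fun _ => 0 := by
    filter_upwards [h] with x hx
    have h2 : x ∈ s ↔ x ∈ t := Iff.of_eq hx
    by_cases h3 : x ∈ s
    · have h4 := h2.1 h3
      simp [h3, h4]
    · have h4 : x ∉ t := fun h => h3 (h2.2 h)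
      simp [h3, h4]
  rw [integral_congr_ae h1]
  simp

omit mX in
theorem ind_bdd (t : Set X) : ∃ C : ℝ, ∀ x, |t.indicator (fun _ => (1 : ℝ)) x| ≤ C :=
  ⟨1, fun x => by by_cases h : x ∈ t <;> simp [h]⟩

/-- bounded functions measurable with respect to a member of a directed family -/
def Afam (F : Set (MeasurableSpace X)) (f : X → ℝ) : Prop :=
  ∃ 𝓒 ∈ F, Measurable[𝓒] f ∧ ∃ C : ℝ, ∀ x, |f x| ≤ C

omit mX in
theorem meas_ops (𝓒 : MeasurableSpace X) {f g : X → ℝ} (hf : Measurable[𝓒] f) (hg : Measurable[𝓒] g) :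
    Measurable[𝓒] (fun x => f x + g x) ∧ Measurable[𝓒] (fun x => f x * g x) ∧
    (∀ c : ℝ, Measurable[𝓒] (fun x => c * f x)) ∧ ∀ c : ℝ, Measurable[𝓒] (fun x => max (-c) (min c (f x))) :=
  ⟨hf.add hg, hf.mul hg, fun c => hf.const_mul c, fun _ => measurable_const.max (measurable_const.min hf)⟩

theorem Afam_alg {F : Set (MeasurableSpace X)} (hne : F.Nonempty) (hdir : DirectedOn (· ≤ ·) F)
    (hle : ∀ 𝓒 ∈ F, 𝓒 ≤ mX) : Alg0 (Afam F) := by
  have hpair : ∀ f g, Afam F f → Afam F g → ∃ 𝓒 ∈ F, Measurable[𝓒] f ∧ Measurable[𝓒] g := by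
    rintro f g ⟨𝓒₁, h1, h2, -⟩ ⟨𝓒₂, h3, h4, -⟩
    obtain ⟨𝓒, hC, h5, h6⟩ := hdir 𝓒₁ h1 𝓒₂ h3
    exact ⟨𝓒, hC, h2.mono h5 le_rfl, h4.mono h6 le_rfl⟩
  have hb : ∀ f, Afam F f → BMr f := fun f ⟨𝓒, h1, h2, h3⟩ => ⟨h2.mono (hle 𝓒 h1) le_rfl, h3⟩
  refine ⟨hb, ?_, ?_, ?_, ?_, ?_⟩
  · intro f g hf hg
    have h0 := (BMr.add' (hb f hf) (hb g hg)).2
    obtain ⟨𝓒, hC, h1, h2⟩ := hpair f g hf hg
    exact ⟨𝓒, hC, (meas_ops 𝓒 h1 h2).1, h0⟩
  · intro f g hf hg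
    have h0 := ((hb f hf).mul (hb g hg)).2
    obtain ⟨𝓒, hC, h1, h2⟩ := hpair f g hf hg
    exact ⟨𝓒, hC, (meas_ops 𝓒 h1 h2).2.1, h0⟩
  · intro c f hf
    have h0 := (BMr.smul' (hb f hf) c).2
    obtain ⟨𝓒, hC, h1, h2⟩ := hf
    exact ⟨𝓒, hC, (meas_ops 𝓒 h1 h1).2.2.1 c, h0⟩
  · intro c
    obtain ⟨𝓒, hC⟩ := hne
    exact ⟨𝓒, hC, @measurable_const _ _ _ 𝓒 c, |c|, fun _ => le_rfl⟩
  · rintro c f ⟨𝓒, hC, h1, C, h2⟩
    refine ⟨𝓒, hC, (meas_ops 𝓒 h1 h1).2.2.2 c, |c|, fun x => ?_⟩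
    have h3 : -|c| ≤ -c := by linarith [le_abs_self c]
    have h4 : -c ≤ |c| := neg_le_abs c
    rw [abs_le]
    exact ⟨h3.trans (le_max_left _ _), max_le h4 ((min_le_left _ _).trans (le_abs_self c))⟩

/-- the class for one σ-algebra up to null sets and for the supremum of a directed family -/
theorem cva_fam {F : Set (MeasurableSpace X)} (hne : F.Nonempty) (hdir : DirectedOn (· ≤ ·) F)
    (hle : ∀ 𝓒 ∈ F, 𝓒 ≤ mX) {T : X → X} (hT : MeasurePreserving T μ μ) {m : ℕ} (a : Fin m → ℕ)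
    (hc : ∀ 𝓒 ∈ F, CvA μ T a 𝓒)
    (hB : ∀ s, MeasurableSet[𝓑] s → MeasurableSet s ∧ cl μ (Afam F) (s.indicator fun _ => (1 : ℝ))) :
    CvA μ T a 𝓑 := by
  classical
  refine cva_of_alg 𝓑 (Afam_alg hne hdir hle) hT a (fun f hf => ?_) hB
  have hcom : ∀ J : Finset (Fin m), ∃ 𝓒 ∈ F, ∀ j ∈ J, Measurable[𝓒] (f j) := by
    intro J
    induction J using Finset.induction_on with
    | empty =>
      obtain ⟨𝓒, hC⟩ := hne
      exact ⟨𝓒, hC, fun j hj => absurd hj (Finset.notMem_empty j)⟩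
    | insert i J _ ih =>
      obtain ⟨𝓒₁, h1, h2⟩ := ih
      obtain ⟨𝓒₂, h3, h4, -⟩ := hf i
      obtain ⟨𝓒, hC, h5, h6⟩ := hdir 𝓒₁ h1 𝓒₂ h3
      refine ⟨𝓒, hC, fun j hj => ?_⟩
      rcases Finset.mem_insert.1 hj with rfl | hj
      · exact h4.mono h6 le_rfl
      · exact (h2 j hj).mono h5 le_rfl
  obtain ⟨𝓒, hC, h1⟩ := hcom Finset.univ
  choose D hD using fun j => (hf j).choose_spec.2.2
  refine hc 𝓒 hC _ (fun j => Complex.measurable_ofReal.comp (h1 j (Finset.mem_univ j))) ⟨∑ j, |D j|, fun j x => ?_⟩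
  rw [Complex.norm_real]
  exact (hD j x).trans ((le_abs_self _).trans
    (Finset.single_le_sum (f := fun j => |D j|) (fun _ _ => abs_nonneg _) (Finset.mem_univ j)))

theorem cva_mod (hle : 𝓐 ≤ mX) {T : X → X} (hT : MeasurePreserving T μ μ) {m : ℕ} (a : Fin m → ℕ)
    (hc : CvA μ T a 𝓐) (hB : ∀ s, MeasurableSet[𝓑] s → MeasurableSet s ∧ ∃ t, MeasurableSet[𝓐] t ∧ s =ᵐ[μ] t) :
    CvA μ T a 𝓑 := by
  refine cva_fam 𝓑 (F := {𝓐}) (Set.singleton_nonempty _) (directedOn_singleton _)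
    (by rintro 𝓒 rfl; exact hle) hT a (by rintro 𝓒 rfl; exact hc) fun s hs => ?_
  obtain ⟨h1, t, h2, h3⟩ := hB s hs
  refine ⟨h1, BMr.indicator h1, fun ε hε => ⟨t.indicator fun _ => (1 : ℝ), ⟨𝓐, rfl, ?_, ?_⟩, ?_⟩⟩
  · exact (@measurable_const _ _ _ 𝓐 (1 : ℝ)).indicator h2
  · exact (BMr.indicator (hle t h2)).2
  · rw [ind_sub_zero h3]
    exact hε.le

theorem cva_sup {F : Set (MeasurableSpace X)} (hne : F.Nonempty) (hdir : DirectedOn (· ≤ ·) F)
    (hle : ∀ 𝓒 ∈ F, 𝓒 ≤ mX) {T : X → X} (hT : MeasurePreserving T μ μ) {m : ℕ} (a : Fin m → ℕ)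
    (hc : ∀ 𝓒 ∈ F, CvA μ T a 𝓒) : CvA μ T a (sSup F) := by
  refine cva_fam (sSup F) hne hdir hle hT a hc fun s hs => ?_
  have hA := Afam_alg hne hdir hle
  have hAf : ∀ t : Set X, Afam F (t.indicator fun _ => (1 : ℝ)) → cl μ (Afam F) (t.indicator fun _ => (1 : ℝ)) :=
    fun t ht => cl.of hA ht
  have h1 : sSup F ≤ Gs (cl_calg (μ := μ) hA) := by
    refine sSup_le fun 𝓒 hC t ht => ⟨hle 𝓒 hC t ht, hAf t ⟨𝓒, hC, ?_, ind_bdd t⟩⟩
    exact (@measurable_const _ _ _ 𝓒 (1 : ℝ)).indicator ht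
  exact h1 s hs

end

/-- transfer along equivariant maps: from the target to the functions of the map -/
theorem AV_equiv {X Z : Type} {T : X → X} {R : Z → Z} {p : X → Z} {x : X} (hx : ∀ n, p (T^[n] x) = R^[n] (p x)) {m : ℕ}
    (a : Fin m → ℕ) (g : Fin m → Z → ℂ) (N : ℕ) : AV T a (fun j x => g j (p x)) N x = AV R a g N (p x) := by
  unfold AV
  simp only [hx]

theorem equiv_iter {X Z : Type} [MeasurableSpace X] {μ : Measure X} {T : X → X} (hT : MeasurePreserving T μ μ)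
    {R : Z → Z} {p : X → Z} (h : ∀ᵐ x ∂μ, p (T x) = R (p x)) : ∀ᵐ x ∂μ, ∀ n : ℕ, p (T^[n] x) = R^[n] (p x) := by
  have h1 : ∀ᵐ x ∂μ, ∀ n : ℕ, p (T (T^[n] x)) = R (p (T^[n] x)) := by
    rw [ae_all_iff]
    exact fun n => (hT.iterate n).quasiMeasurePreserving.ae h
  filter_upwards [h1] with x hx n
  induction n with
  | zero => rfl
  | succ n ih => rw [Function.iterate_succ_apply', hx n, ih, Function.iterate_succ_apply']

theorem AV_measurable {X : Type} [MeasurableSpace X] {T : X → X} (hT : Measurable T) {m : ℕ} (a : Fin m → ℕ)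
    {f : Fin m → X → ℂ} (hf : ∀ j, Measurable (f j)) (N : ℕ) : Measurable (fun x => AV T a f N x) := by
  unfold AV av
  refine (Finset.measurable_fun_sum _ fun n _ => ?_).const_mul _
  exact Finset.measurable_fun_prod _ fun j _ => (hf j).comp (hT.iterate _)

theorem cva_iso {X : Type} (𝓑 𝓐 : MeasurableSpace X) [mX : MeasurableSpace X] {μ : Measure X} [IsProbabilityMeasure μ]
    {Y K W : Type} [MeasurableSpace Y] [StandardBorelSpace Y] [Group K] [TopologicalSpace K]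
    [IsTopologicalGroup K] [CompactSpace K] [T2Space K] [SecondCountableTopology K] [MeasurableSpace K] [BorelSpace K]
    [MeasurableSpace W] [StandardBorelSpace W] [MulAction K W] [MeasurableSMul₂ K W]
    {ρ : Measure K} [ρ.IsHaarMeasure] [IsProbabilityMeasure ρ] (w₀ : W) (S : Y ≃ᵐ Y)
    {σ : Y → K} (hσ : Measurable σ) {π : X → Y} (hπ : Measurable π) {τ : X → W} (hτ : Measurable τ)
    {T : X → X} (hT : MeasurePreserving T μ μ) (h1 : ∀ᵐ x ∂μ, π (T x) = S (π x))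
    (h2 : ∀ᵐ x ∂μ, τ (T x) = σ (π x) • τ x)
    (h3 : μ.map (fun x => (π x, τ x)) = (μ.map π).prod (ρ.map fun k => k • w₀)) (hle : 𝓐 ≤ mX)
    (h4 : ∀ B, MeasurableSet B → ∃ A, MeasurableSet[𝓐] A ∧ π ⁻¹' B =ᵐ[μ] A)
    (h5 : ∀ B, MeasurableSet[𝓑] B → MeasurableSet B ∧
      ∃ C : Set (Y × W), MeasurableSet C ∧ B =ᵐ[μ] (fun x => (π x, τ x)) ⁻¹' C)
    (a : Fin 3 → ℕ) (hinj : Function.Injective a) (ha0 : ∀ j, 0 < a j) (hc : CvA μ T a 𝓐) : CvA μ T a 𝓑 := by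
  have hν : IsProbabilityMeasure (μ.map π) := Measure.isProbabilityMeasure_map hπ.aemeasurable
  have hS : MeasurePreserving S (μ.map π) (μ.map π) := by
    refine ⟨S.measurable, ?_⟩
    rw [Measure.map_map S.measurable hπ]
    have e1 : (S ∘ π) =ᵐ[μ] (π ∘ T) := by
      filter_upwards [h1] with x hx
      exact hx.symm
    rw [Measure.map_congr e1, ← Measure.map_map hπ hT.measurable, hT.map_eq]
  -- convergence on the base
  have hcπ : CvA μ T a (MeasurableSpace.comap π inferInstance) := by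
    refine cva_mod _ 𝓐 hle hT a hc fun s hs => ?_
    obtain ⟨B, hB, rfl⟩ := hs
    exact ⟨hπ hB, h4 B hB⟩
  have hY : ∀ g : Fin 3 → Y → ℂ, (∀ j, Measurable (g j)) → (∃ C, ∀ j y, ‖g j y‖ ≤ C) →
      ∀ᵐ y ∂(μ.map π), ∃ L, Tendsto (fun N => AV S a g N y) atTop (𝓝 L) := by
    intro g hg hgb
    rw [ae_map_iff hπ.aemeasurable (measurableSet_exists_tendsto (fun N => AV_measurable S.measurable a hg N))]
    have h6 := hcπ (fun j x => g j (π x)) (fun j => (hg j).comp (comap_measurable π)) (by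
      obtain ⟨C, hC⟩ := hgb
      exact ⟨C, fun j x => hC j _⟩)
    filter_upwards [h6, equiv_iter hT h1] with x hx1 hx2
    obtain ⟨L, hL⟩ := hx1
    exact ⟨L, hL.congr fun N => AV_equiv hx2 a g N⟩
  -- the extension
  have hp : Measurable (fun x => (π x, τ x)) := hπ.prodMk hτ
  have hmp : MeasurePreserving (fun x => (π x, τ x)) μ ((μ.map π).prod (ρ.map fun k => k • w₀)) := ⟨hp, h3⟩
  have hpT : ∀ᵐ x ∂μ, (π (T x), τ (T x)) = exs S σ (π x, τ x) := by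
    filter_upwards [h1, h2] with x hx1 hx2
    unfold exs
    simp only
    rw [hx1, hx2]
  have hiter := equiv_iter (p := fun x => (π x, τ x)) (R := exs S σ) hT hpT
  set A : (X → ℝ) → Prop := fun f => ∃ g : Y × W → ℝ, BMr g ∧ f = fun x => g (π x, τ x) with hA
  have hAlg : Alg0 A := by
    refine ⟨?_, ?_, ?_, ?_, ?_, ?_⟩
    · rintro f ⟨g, hg, rfl⟩
      exact hg.comp hp
    · rintro f f' ⟨g, hg, rfl⟩ ⟨g', hg', rfl⟩
      exact ⟨_, BMr.add' hg hg', rfl⟩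
    · rintro f f' ⟨g, hg, rfl⟩ ⟨g', hg', rfl⟩
      exact ⟨_, hg.mul hg', rfl⟩
    · rintro c f ⟨g, hg, rfl⟩
      exact ⟨_, BMr.smul' hg c, rfl⟩
    · intro c
      exact ⟨fun _ => c, ⟨measurable_const, |c|, fun _ => le_rfl⟩, rfl⟩
    · rintro c f ⟨g, hg, rfl⟩
      refine ⟨fun z => max (-c) (min c (g z)), ⟨measurable_const.max (measurable_const.min hg.1), |c|, fun x => ?_⟩, rfl⟩
      have h3 : -|c| ≤ -c := by linarith [le_abs_self c]
      have h4 : -c ≤ |c| := neg_le_abs c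
      rw [abs_le]
      exact ⟨h3.trans (le_max_left _ _), max_le h4 ((min_le_left _ _).trans (le_abs_self c))⟩
  refine cva_of_alg 𝓑 hAlg hT a (fun f hf => ?_) fun s hs => ?_
  · choose g hg1 hg2 using hf
    choose D hD using fun j => (hg1 j).2
    have h7 := iso3 zac (ρ := ρ) w₀ S hS hσ a hinj ha0 hY (fun j z => ((g j z : ℝ) : ℂ))
      (fun j => Complex.measurable_ofReal.comp (hg1 j).1) ⟨∑ j, |D j|, fun j x => by
        rw [Complex.norm_real]
        exact (hD j x).trans ((le_abs_self _).trans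
          (Finset.single_le_sum (f := fun j => |D j|) (fun _ _ => abs_nonneg _) (Finset.mem_univ j)))⟩
    filter_upwards [hmp.quasiMeasurePreserving.ae h7, hiter] with x hx1 hx2
    obtain ⟨L, hL⟩ := hx1
    refine ⟨L, hL.congr fun N => ?_⟩
    rw [← AV_equiv (T := T) (p := fun x => (π x, τ x)) hx2 a (fun j z => ((g j z : ℝ) : ℂ)) N]
    congr 1
    funext j x
    rw [hg2 j]
  · obtain ⟨hsm, C, hC, h8⟩ := h5 s hs
    refine ⟨hsm, BMr.indicator hsm, fun ε hε => ⟨_, ⟨C.indicator fun _ => (1 : ℝ), BMr.indicator hC, rfl⟩, ?_⟩⟩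
    have h9 := ind_sub_zero h8
    have e : ∀ x, ((fun x => (π x, τ x)) ⁻¹' C).indicator (fun _ => (1 : ℝ)) x =
        C.indicator (fun _ => (1 : ℝ)) (π x, τ x) := fun x => rfl
    simp only [e] at h9
    rw [h9]
    exact hε.le

end Pool.Agent.H80IE
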